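import Pool.Agent.K1H97.CU.Card
import Mathlib.NumberTheory.LSeries.PrimesInAP

/-!
# Infinite sets of primes with constant symbols
-/

set_option autoImplicit false

namespace Pool.Agent.K1H97.CU

open Finset
open Pool.Agent.Y676
open Pool.Agent.W262.RK (dv sgn sg0 LL LocH)

/-- a residue with a given symbol -/
lemma exists_res {r : ℕ} (hr : r.Prime) (hr2 : r ≠ 2) {x : ℤ} (hx : x = 1 ∨ x = -1) :
    ∃ ρ : ℕ, ρ.Coprime r ∧ ∀ n : ℕ, n ≡ ρ [MOD r] → jacobiSym (n : ℤ) r = x := by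
  have : Fact r.Prime := ⟨hr⟩
  have hmod : ∀ {n ρ : ℕ}, n ≡ ρ [MOD r] → jacobiSym (n : ℤ) r = jacobiSym (ρ : ℤ) r := by
    intro n ρ h
    have h1 : (n : ℤ) % (r : ℤ) = (ρ : ℤ) % (r : ℤ) := by exact_mod_cast h
    rw [jacobiSym.mod_left, h1, ← jacobiSym.mod_left]
  rcases hx with rfl | rfl
  · refine ⟨1, Nat.coprime_one_left r, fun n h => ?_⟩
    rw [hmod h, Nat.cast_one, jacobiSym.one_left]
  · obtain ⟨a, ha⟩ := FiniteField.exists_nonsquare (F := ZMod r) (by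
      rw [ZMod.ringChar_zmod_n]; exact hr2)
    have ha0 : a ≠ 0 := by
      rintro rfl
      exact ha IsSquare.zero
    have hv : ((a.val : ℕ) : ZMod r) = a := ZMod.natCast_zmod_val a
    refine ⟨a.val, ?_, fun n h => ?_⟩
    · rw [Nat.coprime_comm, hr.coprime_iff_not_dvd]
      intro hd
      apply ha0
      rw [← hv]
      exact (ZMod.natCast_eq_zero_iff _ _).2 hd
    · rw [hmod h, ← jacobiSym.legendreSym.to_jacobiSym]
      rw [legendreSym.eq_neg_one_iff]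
      rw [Int.cast_natCast, hv]
      exact ha

/-- a large prime in a residue class with given symbols at a finite set of primes -/
lemma exists_prime {M q₀ : ℕ} (hM : 0 < M) (hc : q₀.Coprime M) {x : ℤ} (hx : x = 1 ∨ x = -1)
    (S : Finset ℕ) (hS : ∀ r ∈ S, r.Prime ∧ r ≠ 2 ∧ r.Coprime M) (B : ℕ) :
    ∃ q : ℕ, B < q ∧ q.Prime ∧ q ≡ q₀ [MOD M] ∧ ∀ r ∈ S, jacobiSym (q : ℤ) r = x := by
  classical
  have h1 : ∀ r : ℕ, ∃ ρ : ℕ, r ∈ S → ρ.Coprime r ∧
      ∀ n : ℕ, n ≡ ρ [MOD r] → jacobiSym (n : ℤ) r = x := by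
    intro r
    by_cases hr : r ∈ S
    · obtain ⟨ρ, h⟩ := exists_res (hS r hr).1 (hS r hr).2.1 hx
      exact ⟨ρ, fun _ => h⟩
    · exact ⟨0, fun h => absurd h hr⟩
  choose ρ hρ using h1
  obtain ⟨b, hb⟩ := Nat.chineseRemainderOfFinset ρ (fun r => r) S
    (fun r hr => (hS r hr).1.ne_zero) (fun r hr r' hr' hne =>
      (Nat.coprime_primes (hS r hr).1 (hS r' hr').1).2 hne)
  obtain ⟨R, hR⟩ : ∃ R : ℕ, R = ∏ r ∈ S, r := ⟨_, rfl⟩
  have hR0 : 0 < R := by rw [hR]; exact prod_pos fun r hr => (hS r hr).1.pos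
  have hMR : M.Coprime R := by
    rw [hR]
    exact Nat.Coprime.prod_right fun r hr => (hS r hr).2.2.symm
  obtain ⟨c, hc1, hc2⟩ := Nat.chineseRemainder hMR q₀ b
  have hcop : c.Coprime (M * R) := by
    apply Nat.Coprime.mul_right
    · have h2 : c.gcd M = q₀.gcd M := by
        have := hc1.gcd_eq
        exact this
      unfold Nat.Coprime
      rw [h2]
      exact hc
    · rw [hR]
      apply Nat.Coprime.prod_right
      intro r hr
      have h3 : c ≡ ρ r [MOD r] := (hc2.of_dvd (by rw [hR]; exact dvd_prod_of_mem _ hr)).trans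
        (hb r hr)
      unfold Nat.Coprime
      rw [h3.gcd_eq]
      exact (hρ r hr).1
  have : NeZero (M * R) := ⟨by positivity⟩
  obtain ⟨q, hq1, hq2, hq3⟩ := Nat.forall_exists_prime_gt_and_eq_mod
    ((ZMod.isUnit_iff_coprime c (M * R)).2 hcop) B
  have hq4 : q ≡ c [MOD (M * R)] := (ZMod.natCast_eq_natCast_iff _ _ _).1 hq3
  refine ⟨q, hq1, hq2, (hq4.of_dvd (Dvd.intro _ rfl)).trans hc1, fun r hr => ?_⟩
  apply (hρ r hr).2
  refine (hq4.of_dvd ?_).trans ((hc2.of_dvd ?_).trans (hb r hr))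
  · rw [hR]
    exact (dvd_prod_of_mem _ hr).mul_left _
  · rw [hR]
    exact dvd_prod_of_mem _ hr

lemma exists_xs {a b c : ℤ} (ha : a = 1 ∨ a = -1) (hb : b = 1 ∨ b = -1) (hc : c = 1 ∨ c = -1) :
    ∃ x : ℤ, (x = 1 ∨ x = -1) ∧ ¬ (x * a = 1 ∧ a * c = 1) ∧ ¬ (a * b = 1 ∧ x * a = 1) ∧
      ¬ (x * b = 1 ∧ x * c = 1) := by
  rcases ha with rfl | rfl <;> rcases hb with rfl | rfl <;> rcases hc with rfl | rfl <;>
    first
    | exact ⟨1, by decide⟩
    | exact ⟨-1, by decide⟩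

lemma jac_pm {q : ℕ} (hq : q.Prime) {a : ℤ} (ha : ¬ (q : ℤ) ∣ a) :
    jacobiSym a q = 1 ∨ jacobiSym a q = -1 := by
  rw [sg0_pm hq ha]
  split_ifs
  · exact Or.inr rfl
  · exact Or.inl rfl

lemma jac_mod {a : ℤ} {M q q₀ : ℕ} (ha : 4 * a.natAbs ∣ M) (hq : Odd q) (hq₀ : Odd q₀)
    (h : q ≡ q₀ [MOD M]) : jacobiSym a q = jacobiSym a q₀ := by
  rw [jacobiSym.mod_right a hq, jacobiSym.mod_right a hq₀]
  have h1 : q % (4 * a.natAbs) = q₀ % (4 * a.natAbs) := h.of_dvd ha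
  rw [h1]

/-- the modulus -/
def MM (Y : ℕ) (A B : ℤ) : ℕ := 8 * Y.factorial * (A * B * (A - B)).natAbs

/-- the primes in the same class are good -/
lemma good_mod {Y : ℕ} {A B : ℤ} {s : ℕ → Bool} {q₀ q : ℕ} (h0 : GoodQ Y A B s q₀)
    (hq : q.Prime) (h : q ≡ q₀ [MOD MM Y A B]) : GoodQ Y A B s q := by
  have h8 : 8 ∣ MM Y A B := by unfold MM; exact ((Dvd.intro _ rfl).mul_right _)
  refine ⟨hq, ?_, ?_, ?_, ?_⟩
  · have h1 : q % 8 = q₀ % 8 := h.of_dvd h8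
    rw [h1, h0.m8]
  · intro p hp hp2 hpY
    have hd : p ∣ MM Y A B := by
      unfold MM
      exact (((hp.dvd_factorial).2 hpY).mul_left _).mul_right _
    have h1 : (q : ℤ) % (p : ℤ) = (q₀ : ℤ) % (p : ℤ) := by exact_mod_cast h.of_dvd hd
    rw [jacobiSym.mod_left, h1, ← jacobiSym.mod_left]
    exact h0.sm p hp hp2 hpY
  · intro hd
    have hd' : q ∣ MM Y A B := by
      unfold MM
      exact (Int.natCast_dvd.1 hd).mul_left _
    have h1 : q ≡ q₀ [MOD q] := h.of_dvd hd'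
    have h2 : q ∣ q₀ := (Nat.modEq_zero_iff_dvd).1 (h1.symm.trans ((Nat.modEq_zero_iff_dvd).2 dvd_rfl))
    have h3 : q = q₀ := (Nat.prime_dvd_prime_iff_eq hq h0.pr).1 h2
    exact h0.nd (h3 ▸ hd)
  · intro l hl hYl hN
    have hd : l ∣ MM Y A B := by
      unfold MM
      exact (Int.natCast_dvd.1 hN).mul_left _
    rw [← h0.sg l hl hYl hN, sQ_eq, sQ_eq]
    have h1 : (q : ℤ) ≡ (q₀ : ℤ) [ZMOD l] := by
      have := h.of_dvd hd
      exact (Int.natCast_modEq_iff).2 this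
    have h2 : (q : ℤ) * uAB A B l % (l : ℤ) = (q₀ : ℤ) * uAB A B l % (l : ℤ) := h1.mul_right _
    unfold sg0
    rw [jacobiSym.mod_left, h2, ← jacobiSym.mod_left]

/-- **Infinite sets of primes.** -/
theorem exists_inf {Y : ℕ} {A B : ℤ} {s : ℕ → Bool} {q₀ : ℕ} (h0 : GoodQ Y A B s q₀) :
    ∃ (x : ℤ) (𝒬 : Set ℕ), 𝒬.Infinite ∧ q₀ ∈ 𝒬 ∧
      ∀ T : Finset ℕ, (T : Set ℕ) ⊆ 𝒬 → Odd T.card → GoodT Y A B s x T := by
  classical
  have hnd := h0.nd
  have hN : A * B * (A - B) ≠ 0 := fun h => hnd (by rw [h]; exact dvd_zero _)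
  have dA : ¬ (q₀ : ℤ) ∣ A := fun h => hnd ((h.mul_right _).mul_right _)
  have dB : ¬ (q₀ : ℤ) ∣ B := fun h => hnd ((h.mul_left _).mul_right _)
  have dAB : ¬ (q₀ : ℤ) ∣ A - B := fun h => hnd (h.mul_left _)
  have hq₀ := h0.pr
  have hq8 := h0.m8
  have hM0 : 0 < MM Y A B := by
    unfold MM
    have h1 := Nat.factorial_pos Y
    have h2 := Int.natAbs_pos.2 hN
    positivity
  have hY : Y < q₀ := by
    by_contra hcon
    push Not at hcon
    have h1 := h0.sm q₀ hq₀ (by omega) hcon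
    have : NeZero q₀ := ⟨hq₀.ne_zero⟩
    have h5 : jacobiSym (q₀ : ℤ) q₀ = 0 := by
      rw [jacobiSym.eq_zero_iff_not_coprime]
      simp [hq₀.ne_one]
    rw [h5] at h1
    norm_num at h1
  have hcop : q₀.Coprime (MM Y A B) := by
    rw [hq₀.coprime_iff_not_dvd]
    intro hd
    unfold MM at hd
    rcases (hq₀.dvd_mul).1 hd with hd | hd
    · rcases (hq₀.dvd_mul).1 hd with hd | hd
      · have h1 : q₀ ∣ 2 ^ 3 := by exact_mod_cast hd
        have h2 := (Nat.prime_dvd_prime_iff_eq hq₀ Nat.prime_two).1 (hq₀.dvd_of_dvd_pow h1)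
        omega
      · have := (hq₀.dvd_factorial).1 hd
        omega
    · exact hnd (Int.natCast_dvd.2 hd)
  obtain ⟨x, hx, x1, x2, x3⟩ := exists_xs (jac_pm hq₀ dA) (jac_pm hq₀ dB) (jac_pm hq₀ dAB)
  have hrec : ∀ {q r : ℕ}, q % 4 = 1 → r % 4 = 1 → jacobiSym (q : ℤ) r = jacobiSym (r : ℤ) q := by
    intro q r h1 h2
    exact jacobiSym.quadratic_reciprocity_one_mod_four h1 (Nat.odd_iff.2 (by omega))
  let r : ℕ → ℕ → Prop := fun q q' => q ≠ q' ∧ jacobiSym (q : ℤ) q' = x ∧ jacobiSym (q' : ℤ) q = x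
  have hsymm : Std.Symm r := ⟨fun q q' h => ⟨h.1.symm, h.2.2, h.2.1⟩⟩
  let P : ℕ → Prop := fun q => q.Prime ∧ q ≡ q₀ [MOD MM Y A B] ∧ r q₀ q
  have hstep : ∀ S : Finset ℕ, (∀ q ∈ S, P q) → ∃ y, P y ∧ ∀ q ∈ S, r q y := by
    intro S hS
    have hm4 : ∀ {q : ℕ}, q ≡ q₀ [MOD MM Y A B] → q % 4 = 1 := by
      intro q h
      have h8 : 8 ∣ MM Y A B := by unfold MM; exact ((Dvd.intro _ rfl).mul_right _)
      have h1 : q % 8 = q₀ % 8 := h.of_dvd h8
      omega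
    have hcp : ∀ {q : ℕ}, q ≡ q₀ [MOD MM Y A B] → q.Coprime (MM Y A B) := by
      intro q h
      unfold Nat.Coprime
      rw [h.gcd_eq]
      exact hcop
    obtain ⟨y, y1, y2, y3, y4⟩ := exists_prime hM0 hcop hx (insert q₀ S) (by
      intro q hq
      rw [mem_insert] at hq
      rcases hq with rfl | hq
      · exact ⟨hq₀, by omega, hcop⟩
      · obtain ⟨a1, a2, -⟩ := hS q hq
        have := hm4 a2
        exact ⟨a1, by omega, hcp a2⟩) (q₀ + S.sup id)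
    have yq₀ : q₀ < y := by omega
    have yS : ∀ q ∈ S, q < y := fun q hq => by
      have : q ≤ S.sup id := le_sup (f := id) hq
      omega
    have hy4 := hm4 y3
    refine ⟨y, ⟨y2, y3, yq₀.ne, ?_, y4 q₀ (mem_insert_self _ _)⟩, fun q hq =>
      ⟨(yS q hq).ne, ?_, y4 q (mem_insert_of_mem hq)⟩⟩
    · rw [hrec (by omega) hy4]
      exact y4 q₀ (mem_insert_self _ _)
    · rw [hrec (hm4 (hS q hq).2.1) hy4]
      exact y4 q (mem_insert_of_mem hq)
  obtain ⟨f, hf1, hf2⟩ := exists_seq_of_forall_finset_exists' P r hstep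
  have hfi : Function.Injective f := by
    intro m n hmn
    by_contra hne
    exact (hf2 hne).1 hmn
  refine ⟨x, insert q₀ (Set.range f), (Set.infinite_range_of_injective hfi).mono
    (Set.subset_insert _ _), Set.mem_insert _ _, fun T hT hod => ?_⟩
  have hmem : ∀ q ∈ T, q.Prime ∧ q ≡ q₀ [MOD MM Y A B] := by
    intro q hq
    rcases hT hq with rfl | ⟨n, rfl⟩
    · exact ⟨hq₀, Nat.ModEq.refl _⟩
    · exact ⟨(hf1 n).1, (hf1 n).2.1⟩
  have hodd : ∀ q ∈ T, Odd q := fun q hq => by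
    have h8 : 8 ∣ MM Y A B := by unfold MM; exact ((Dvd.intro _ rfl).mul_right _)
    have h1 : q % 8 = q₀ % 8 := (hmem q hq).2.of_dvd h8
    exact Nat.odd_iff.2 (by omega)
  have hod₀ : Odd q₀ := Nat.odd_iff.2 (by omega)
  have jA : ∀ q ∈ T, jacobiSym A q = jacobiSym A q₀ := fun q hq =>
    jac_mod (by
      unfold MM
      rw [Int.natAbs_mul, Int.natAbs_mul]
      exact ⟨2 * Y.factorial * (B.natAbs * (A - B).natAbs), by ring⟩) (hodd q hq) hod₀
      (hmem q hq).2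
  have jB : ∀ q ∈ T, jacobiSym B q = jacobiSym B q₀ := fun q hq =>
    jac_mod (by
      unfold MM
      rw [Int.natAbs_mul, Int.natAbs_mul]
      exact ⟨2 * Y.factorial * (A.natAbs * (A - B).natAbs), by ring⟩) (hodd q hq) hod₀
      (hmem q hq).2
  have jC : ∀ q ∈ T, jacobiSym (A - B) q = jacobiSym (A - B) q₀ := fun q hq =>
    jac_mod (by
      unfold MM
      rw [Int.natAbs_mul, Int.natAbs_mul]
      exact ⟨2 * Y.factorial * (A.natAbs * B.natAbs), by ring⟩) (hodd q hq) hod₀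
      (hmem q hq).2
  refine ⟨fun q hq => good_mod h0 (hmem q hq).1 (hmem q hq).2, hod, hx, ?_, ?_, ?_, ?_⟩
  · intro q hq q' hq' hne
    rcases hT hq with rfl | ⟨n, rfl⟩ <;> rcases hT hq' with rfl | ⟨m, rfl⟩
    · exact absurd rfl hne
    · exact (hf1 m).2.2.2.2
    · exact (hf1 n).2.2.2.1
    · have hmn : m ≠ n := fun h => hne (by rw [h])
      exact (hf2 hmn).2.1
  · intro q hq
    rw [jA q hq, jC q hq]
    exact x1
  · intro q hq
    rw [jA q hq, jB q hq]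
    exact x2
  · intro q hq
    rw [jB q hq, jC q hq]
    exact x3

end Pool.Agent.K1H97.CU
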