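import Pool.Agent.K1H97.CU.Dir
import Pool.Agent.Y676.MainB

/-!
# Almost all curves have infinite cubes of twists with trivial 2-primary part of Ш
-/

set_option autoImplicit false

namespace Pool.Agent.K1H97.CU

open Finset
open Pool.Agent.Y676
open Pool.Agent.W307.RT (Cv HasT Sh LOW)
open Pool.Agent.TH841.SH (SelG LocC isR_Sh IsR)
open Pool.Agent.TH841.SH.D (Sha)
open Pool.Agent.H437R2.Man.MW (crv pt_fg)

/-- finitely many rational points -/
lemma fin_R {W : WeierstrassCurve ℚ} {a b c : ℤ} (h : IsR W (a : ℚ) (b : ℚ) (c : ℚ))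
    (hab : a ≠ b) (hac : a ≠ c) (hbc : b ≠ c) (hr : Module.finrank ℤ W.toAffine.Point = 0) :
    Finite W.toAffine.Point := by
  have qab : (a : ℚ) ≠ b := by exact_mod_cast hab
  have qac : (a : ℚ) ≠ c := by exact_mod_cast hac
  have qbc : (b : ℚ) ≠ c := by exact_mod_cast hbc
  have hW : W = crv (-(a : ℚ)) (-(b : ℚ)) (-(c : ℚ)) := by
    apply WeierstrassCurve.ext
    · rw [h.h1]
      rfl
    · rw [h.h2]
      show _ = -(a : ℚ) + -(b : ℚ) + -(c : ℚ)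
      ring
    · rw [h.h3]
      rfl
    · rw [h.h4]
      show _ = -(a : ℚ) * -(b : ℚ) + -(a : ℚ) * -(c : ℚ) + -(b : ℚ) * -(c : ℚ)
      ring
    · rw [h.h6]
      show _ = -(a : ℚ) * -(b : ℚ) * -(c : ℚ)
      ring
  have hfg : AddGroup.FG W.toAffine.Point := by
    rw [hW]
    exact pt_fg (fun h => qab (neg_injective h)) (fun h => qac (neg_injective h))
      (fun h => qbc (neg_injective h))
  have hf : Module.Finite ℤ W.toAffine.Point := Module.Finite.iff_addGroup_fg.2 hfg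
  have ht : Module.IsTorsion ℤ W.toAffine.Point := Module.finrank_eq_zero_iff_isTorsion.1 hr
  exact Module.finite_of_fg_torsion _ ht

/-- finitely many rational points and no element of order two in `Ш` -/
def Tv (W : WeierstrassCurve ℚ) : Prop :=
  Finite W.toAffine.Point ∧ ∀ x : Sha W, x + x = 0 → x = 0

/-- **The twist by an odd number of good primes.** -/
theorem tw_cube' {c : ℤ × ℤ} {e1 e2 e3 : ℤ}
    (hr : ∀ x : ℤ, x ^ 3 + c.1 * x + c.2 = (x - e1) * (x - e2) * (x - e3)) {Y : ℕ} (hY : 2 ≤ Y)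
    (h1 : Ty1 Y (e2 - e1) (e3 - e1)) {s : ℕ → Bool}
    (hs : ∀ e, InS Y (e2 - e1) (e3 - e1) s e → e = (1, 1)) {xs : ℤ} {T : Finset ℕ}
    (hT : GoodT Y (e2 - e1) (e3 - e1) s xs T) : Tv (Sh ((pT T) ^ 2 * c.1) ((pT T) ^ 3 * c.2)) := by
  obtain ⟨g1, g2⟩ := tw_cube hr hY h1 hs hT
  have hTp : ∀ q ∈ T, q.Prime := fun q hq => (hT.gd q hq).pr
  obtain ⟨q, hq⟩ := card_pos.1 hT.od.pos
  have hnd := (hT.gd q hq).nd
  have hN : (e2 - e1) * (e3 - e1) * ((e2 - e1) - (e3 - e1)) ≠ 0 := fun h =>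
    hnd (by rw [h]; exact dvd_zero _)
  have hA0 := left_ne_zero_of_mul (left_ne_zero_of_mul hN)
  have hB0 := right_ne_zero_of_mul (left_ne_zero_of_mul hN)
  have hAB0 := right_ne_zero_of_mul hN
  have hd0 := pT_ne hTp
  have hR := isR_Sh (roots_tw hr (pT T))
  refine ⟨fin_R (a := pT T * e1) (b := pT T * e2) (c := pT T * e3) (by exact_mod_cast hR)
    (fun h => hA0 (sub_eq_zero.2 (mul_left_cancel₀ hd0 h).symm))
    (fun h => hB0 (sub_eq_zero.2 (mul_left_cancel₀ hd0 h).symm))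
    (fun h => hAB0 (by rw [mul_left_cancel₀ hd0 h]; ring)) g1, fun x hx => ?_⟩
  have h5 : (2 ^ 1) • x = 0 := by
    rw [pow_one, two_nsmul]
    exact hx
  exact congrArg Subtype.val ((g2 1).elim ⟨x, h5⟩ ⟨0, smul_zero _⟩)

/-- an infinite set of primes such that the twists by all the products of an odd number of different
elements are trivial -/
def Cube (c : ℤ × ℤ) (𝒬 : Set ℕ) : Prop := 𝒬.Infinite ∧ (∀ q ∈ 𝒬, q.Prime) ∧
  ∀ T : Finset ℕ, (T : Set ℕ) ⊆ 𝒬 → Odd T.card → Tv (Sh ((pT T) ^ 2 * c.1) ((pT T) ^ 3 * c.2))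

open Classical in
/-- the primes in such sets -/
noncomputable def CQ (Q : ℕ) (c : ℤ × ℤ) : Finset ℕ :=
  (Icc 1 Q).filter (fun q => ∃ 𝒬 : Set ℕ, q ∈ 𝒬 ∧ Cube c 𝒬)

theorem cube_of {c : ℤ × ℤ} {e1 e2 e3 : ℤ}
    (hr : ∀ x : ℤ, x ^ 3 + c.1 * x + c.2 = (x - e1) * (x - e2) * (x - e3)) {Y : ℕ} (hY : 2 ≤ Y)
    (h1 : Ty1 Y (e2 - e1) (e3 - e1)) {s : ℕ → Bool}
    (hs : ∀ e, InS Y (e2 - e1) (e3 - e1) s e → e = (1, 1)) {q : ℕ}
    (hq : GoodQ Y (e2 - e1) (e3 - e1) s q) : ∃ 𝒬 : Set ℕ, q ∈ 𝒬 ∧ Cube c 𝒬 := by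
  obtain ⟨x, 𝒬, i1, i2, i3⟩ := exists_inf hq
  refine ⟨𝒬, i2, i1, fun r hr' => ?_, fun T hT hod => tw_cube' hr hY h1 hs (i3 T hT hod)⟩
  have h := i3 {r} (by simpa using hr') (by simp)
  exact (h.gd r (mem_singleton_self r)).pr

open Classical in
theorem main (hkey : S_KEY) (hmom : S_MOM) (ε : ℝ) (hε : 0 < ε) : ∃ κ : ℝ, 0 < κ ∧
    ∃ H0 : ℕ, ∀ H : ℕ, H0 ≤ H → ∀ Q : ℕ, (Real.log H) ^ (CE 1) ≤ Q →
    (((Cv 2 H).filter (fun c => ¬ κ * Q / Real.log Q ≤ ((CQ Q c).card : ℝ))).card : ℝ) ≤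
      ε * ((Cv 2 H).card : ℝ) := by
  obtain ⟨K, hK, hT⟩ := transfer 1
  obtain ⟨δ, hδ⟩ : ∃ δ : ℝ, δ = ε / (2 * (K + 1)) := ⟨_, rfl⟩
  have hδ0 : 0 < δ := by rw [hδ]; positivity
  obtain ⟨Y1, hY12, hY1⟩ := box_all 1 δ hδ0
  obtain ⟨Y2, hY22, hY2⟩ := pos_count hkey hmom (δ / (((1 : ℕ) + 1) * 9 ^ 1)) (by positivity)
  obtain ⟨Y, hY⟩ : ∃ Y : ℕ, Y = max Y1 Y2 := ⟨_, rfl⟩
  have hYge : 2 ≤ Y := by rw [hY]; exact hY12.trans (le_max_left _ _)
  obtain ⟨X1, hX1⟩ := hY1 Y (by rw [hY]; exact le_max_left _ _)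
  obtain ⟨c, hc, X2, hX2⟩ := hY2 Y (by rw [hY]; exact le_max_right _ _)
  have hW0 : 0 < WY Y := by unfold WY; have := Nat.factorial_pos Y; positivity
  obtain ⟨c', Q0, hc', hpnt⟩ := Pool.Agent.Y157.SH.pnt (WY Y) hW0
  refine ⟨c ^ 1 / 2 * c', by positivity, ?_⟩
  have tL : Filter.Tendsto (fun X : ℕ => Real.log (X : ℝ)) Filter.atTop Filter.atTop :=
    Real.tendsto_log_atTop.comp tendsto_natCast_atTop_atTop
  obtain ⟨H1, hH1⟩ := Filter.eventually_atTop.1 ((tL.eventually_ge_atTop 1).and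
    (tL.eventually_ge_atTop (Q0 + 2)))
  obtain ⟨H2, hH2⟩ := hT (X1 + X2 + 2)
  refine ⟨H1 + H2, fun H hH Q hQ => ?_⟩
  obtain ⟨b1, b3⟩ := hH1 H (by omega)
  obtain ⟨T, a1, a2, a3, a4⟩ := hH2 H (by omega)
  have hT0 : (0 : ℝ) < T := by exact_mod_cast (by omega : 0 < T)
  have hlogTH : Real.log T ≤ Real.log H := Real.log_le_log hT0 (by exact_mod_cast a2)
  have hlogT0 : 0 ≤ Real.log T := Real.log_nonneg (by exact_mod_cast (by omega : 1 ≤ T))
  have hQT : (Real.log T) ^ (CE 1) ≤ 2 * Q := by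
    have h1 : (Real.log T) ^ (CE 1) ≤ (Real.log H) ^ (CE 1) := pow_le_pow_left₀ hlogT0 hlogTH _
    have h2 : (0 : ℝ) ≤ Q := Nat.cast_nonneg _
    linarith
  have hQQ : ((Q0 : ℝ) + 2) ≤ Q := by
    have e1 : Real.log H ≤ (Real.log H) ^ (CE 1) := le_self_pow₀ b1 (by unfold CE; omega)
    linarith
  have hQ0 : Q0 ≤ Q := by
    have : (Q0 : ℝ) ≤ Q := by linarith
    exact_mod_cast this
  -- the exceptional pairs of the box
  let p : (Fin 1 → ℤ × ℤ) → Prop := fun t => ¬ GT Y T Q t ∨ ∃ i, ¬ Pst Y c (t i)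
  have hp : (((TB 1 T).filter p).card : ℝ) ≤ 2 * δ * (T : ℝ) ^ (2 * 1) := by
    have hsub : (TB 1 T).filter p ⊆ (TB 1 T).filter (fun t => ¬ GT Y T Q t) ∪
        univ.biUnion (fun i : Fin 1 => (TB 1 T).filter (fun t => ¬ Pst Y c (t i))) := by
      intro t ht
      rw [mem_filter] at ht
      rw [mem_union, mem_filter, mem_biUnion]
      rcases ht.2 with h | ⟨i, h⟩
      · exact Or.inl ⟨ht.1, h⟩
      · exact Or.inr ⟨i, mem_univ _, mem_filter.2 ⟨ht.1, h⟩⟩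
    have h1 := (card_le_card hsub).trans ((card_union_le _ _).trans
      (Nat.add_le_add_left card_biUnion_le _))
    have h2 : (((TB 1 T).filter p).card : ℝ) ≤ (((TB 1 T).filter (fun t => ¬ GT Y T Q t)).card : ℝ) +
        ∑ i : Fin 1, (((TB 1 T).filter (fun t => ¬ Pst Y c (t i))).card : ℝ) := by
      exact_mod_cast h1
    have h3 := hX1 T (by omega) Q hQT
    have h4 : ∀ i ∈ (univ : Finset (Fin 1)), (((TB 1 T).filter
        (fun t => ¬ Pst Y c (t i))).card : ℝ) ≤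
        δ / (((1 : ℕ) + 1) * 9 ^ 1) * 9 ^ 1 * (T : ℝ) ^ (2 * 1) := fun i _ =>
      tup_one T (by omega) (fun x => ¬ Pst Y c x) i _ (hX2 T (by omega))
    have h5 := sum_le_sum h4
    rw [sum_const, card_univ, Fintype.card_fin, nsmul_eq_mul] at h5
    have h6 : ((1 : ℕ) : ℝ) * (δ / (((1 : ℕ) + 1) * 9 ^ 1) * 9 ^ 1 * (T : ℝ) ^ (2 * 1)) =
        1 / 2 * (δ * (T : ℝ) ^ (2 * 1)) := by
      push_cast
      ring
    have h8 : 0 ≤ δ * (T : ℝ) ^ (2 * 1) := by positivity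
    rw [h6] at h5
    refine (h2.trans (add_le_add h3 h5)).trans ?_
    rw [mul_assoc 2 δ]
    generalize δ * (T : ℝ) ^ (2 * 1) = z at h8 ⊢
    linarith
  have h5 := a4 (2 * δ) (by positivity) p hp
  have hlQ : 0 < Real.log Q := by
    apply Real.log_pos
    have : (0 : ℝ) ≤ Q0 := Nat.cast_nonneg _
    linarith
  have h6 : (((Cv 2 H).filter (fun c₁ => ¬ c ^ 1 / 2 * c' * Q / Real.log Q ≤
      ((CQ Q c₁).card : ℝ))).card : ℝ) ≤
      (((CT 1 H).filter (fun x => p (fun i => Ab (x i)))).card : ℝ) := by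
    have : ((Cv 2 H).filter (fun c₁ => ¬ c ^ 1 / 2 * c' * Q / Real.log Q ≤
      ((CQ Q c₁).card : ℝ))).card ≤ ((CT 1 H).filter (fun x => p (fun i => Ab (x i)))).card := by
      apply card_le_card_of_injOn (fun c₁ (_ : Fin 1) => c₁)
      · intro c₁ hx
        rw [mem_coe, mem_filter] at hx
        have hmem : (fun (_ : Fin 1) => c₁) ∈ CT 1 H := by
          unfold CT
          rw [Fintype.mem_piFinset]
          exact fun _ => hx.1
        rw [mem_coe, mem_filter]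
        refine ⟨hmem, ?_⟩
        by_contra hcon
        change ¬ (¬ GT Y T Q (fun _ => Ab c₁) ∨ ∃ i : Fin 1, ¬ Pst Y c (Ab c₁)) at hcon
        rw [not_or, not_not] at hcon
        obtain ⟨hG, hP⟩ := hcon
        push Not at hP
        apply hx.2
        obtain ⟨S, s2, s3⟩ := many_good2 hc (a3 _ hmem) hG (fun i => hP i)
        have hsub : S ⊆ CQ Q c₁ := by
          intro q hq
          obtain ⟨hqp, q1, q2⟩ := s2 q hq
          unfold CQ
          rw [mem_filter, mem_Icc]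
          refine ⟨⟨hqp.one_lt.le, q1⟩, ?_⟩
          have hpr := pr_EE hx.1
          obtain ⟨s, hs1, hs2⟩ := q2 0
          exact cube_of hpr.rt hYge (hG.ty1 0) hs1 hs2
        have h7 : (S.card : ℝ) ≤ ((CQ Q c₁).card : ℝ) := by exact_mod_cast card_le_card hsub
        refine le_trans ?_ (s3.trans h7)
        have h8 := hpnt Q hQ0
        have h9 : 0 ≤ c ^ 1 / 2 := by positivity
        calc c ^ 1 / 2 * c' * Q / Real.log Q = c ^ 1 / 2 * (c' * Q / Real.log Q) := by ring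
          _ ≤ _ := mul_le_mul_of_nonneg_left h8 h9
      · intro x _ y _ hxy
        exact congrFun hxy 0
    exact_mod_cast this
  rw [pow_one] at h5
  refine h6.trans (h5.trans ?_)
  apply mul_le_mul_of_nonneg_right _ (by positivity)
  rw [hδ]
  have e1 : 2 * (ε / (2 * (K + 1))) * K = ε * (K / (K + 1)) := by
    field_simp
  rw [e1]
  have e2 : K / (K + 1) ≤ 1 := by
    rw [div_le_one (by positivity)]
    linarith
  nlinarith

end Pool.Agent.K1H97.CU
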