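import Pool.Agent.K1H97.CU.Main
import Pool.Agent.K1H97.WA.Iso
import Pool.Agent.Y723.QT.Crv

/-!
# The curves over multiquadratic fields
-/

set_option autoImplicit false

namespace Pool.Agent.K1H97.CU

open Finset WeierstrassCurve
open Pool.Agent.Y676
open Pool.Agent.W307.RT (Cv HasT Sh LOW)
open Pool.Agent.TH841.NF (EF)
open Pool.Agent.Y723.QT (Kl F2 tf_EF fg_EF base_kl f2_iff)
open Pool.Agent.Y682 (MP)

/-- the products of the symmetric differences -/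
lemma sd_prod {S T : Finset ℕ} : pT S * pT T = pT (symmDiff S T) * (pT (S ∩ T)) ^ 2 := by
  unfold pT
  have h1 : ∏ q ∈ S, q = (∏ q ∈ S \ T, q) * ∏ q ∈ S ∩ T, q := by
    rw [mul_comm, ← prod_inter_mul_prod_sdiff S T]
  have h2 : ∏ q ∈ T, q = (∏ q ∈ T \ S, q) * ∏ q ∈ S ∩ T, q := by
    rw [mul_comm, inter_comm, ← prod_inter_mul_prod_sdiff T S]
  have h3 : ∏ q ∈ symmDiff S T, q = (∏ q ∈ S \ T, q) * ∏ q ∈ T \ S, q := by
    have hd : Disjoint (S \ T) (T \ S) := by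
      rw [Finset.disjoint_left]
      intro a ha hb
      exact (mem_sdiff.1 hb).2 (mem_sdiff.1 ha).1
    have he : symmDiff S T = (S \ T) ∪ (T \ S) := rfl
    rw [he, prod_union hd]
  rw [h1, h2, h3]
  push_cast
  ring

lemma sd_card {S T : Finset ℕ} (hS : Odd S.card) (hT : Even T.card) :
    Odd (symmDiff S T).card := by
  have he : symmDiff S T = (S \ T) ∪ (T \ S) := rfl
  have hd : Disjoint (S \ T) (T \ S) := by
    rw [Finset.disjoint_left]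
    intro a ha hb
    exact (mem_sdiff.1 hb).2 (mem_sdiff.1 ha).1
  rw [he, card_union_of_disjoint hd]
  have h1 := card_inter_add_card_sdiff S T
  have h2 := card_inter_add_card_sdiff T S
  rw [inter_comm] at h2
  obtain ⟨a, ha⟩ := hS
  obtain ⟨b, hb⟩ := hT
  rw [Nat.odd_iff]
  omega

lemma prod_sd {n : ℕ} {𝒬 : Set ℕ} {D : Finset ℕ} (hD : (D : Set ℕ) ⊆ 𝒬) (hod : Odd D.card)
    (hp : ∀ q ∈ 𝒬, q.Prime) (T : Fin n → Finset ℕ) (hT : ∀ i, (T i : Set ℕ) ⊆ 𝒬 ∧ Even (T i).card)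
    (I : Finset (Fin n)) : ∃ (D' : Finset ℕ) (k : ℤ), (D' : Set ℕ) ⊆ 𝒬 ∧ Odd D'.card ∧ k ≠ 0 ∧
      (∏ i ∈ I, pT (T i)) * pT D = pT D' * k ^ 2 := by
  classical
  induction I using Finset.induction_on with
  | empty => exact ⟨D, 1, hD, hod, one_ne_zero, by rw [prod_empty]; ring⟩
  | insert i I hi ih =>
    obtain ⟨D', k, h1, h2, h3, h4⟩ := ih
    refine ⟨symmDiff D' (T i), k * pT (D' ∩ T i), ?_, sd_card h2 (hT i).2, ?_, ?_⟩
    · intro q hq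
      rw [mem_coe, mem_symmDiff] at hq
      rcases hq with hq | hq
      · exact h1 hq.1
      · exact (hT i).1 hq.1
    · refine mul_ne_zero h3 (pT_ne fun q hq => hp q ?_)
      exact h1 (mem_inter.1 hq).1
    · rw [prod_insert hi, mul_assoc, h4]
      calc pT (T i) * (pT D' * k ^ 2) = (pT D' * pT (T i)) * k ^ 2 := by ring
        _ = _ := by rw [sd_prod]; ring

/-- scaling of a trivial curve -/
lemma tv_scale {A B k : ℤ} (hk : k ≠ 0) (hD : 4 * A ^ 3 + 27 * B ^ 2 ≠ 0) (h : Tv (Sh A B)) :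
    Pool.Agent.TH841.SH.D.rk (Sh (k ^ 4 * A) (k ^ 6 * B)) = 0 ∧
      Kl (Pool.Agent.TH841.SH.D.Sha (Sh (k ^ 4 * A) (k ^ 6 * B))) 0 := by
  obtain ⟨h1, h2⟩ := h
  constructor
  · rw [Pool.Agent.Y723.QT.rk_scale hk hD]
    have : Finite (Sh A B).toAffine.Point := h1
    unfold Pool.Agent.TH841.SH.D.rk
    exact Module.finrank_eq_zero_iff_isTorsion.2 (isAddTorsion_iff_isTorsion_int.1
      (isAddTorsion_of_finite (G := (Sh A B).toAffine.Point)))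
  · have hv : Pool.Agent.Y700.VR (Sh (k ^ 4 * A) (k ^ 6 * B)) (Sh A B) (k : ℚ) 0 0 0 :=
      { u0 := by exact_mod_cast hk
        e1 := by simp [Sh]
        e2 := by simp [Sh]
        e3 := by simp [Sh]
        e4 := by simp [Sh]
        e6 := by simp [Sh] }
    have hD' : (Sh A B).Δ ≠ 0 := by
      have h1 : (Sh A B).Δ = -16 * ((4 * A ^ 3 + 27 * B ^ 2 : ℤ) : ℚ) := by
        simp only [Sh, WeierstrassCurve.Δ, WeierstrassCurve.b₂, WeierstrassCurve.b₄,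
          WeierstrassCurve.b₆, WeierstrassCurve.b₈]
        push_cast
        ring
      rw [h1]
      exact mul_ne_zero (by norm_num) (by exact_mod_cast hD)
    have h3 := Pool.Agent.K1H97.WA.sha_vr hv hD' h2
    intro j
    induction j with
    | zero => intro x hx; exact hx
    | succ j ih =>
      intro x hx
      apply ih
      apply h3
      rw [← two_nsmul, ← mul_nsmul', ← pow_succ']
      exact hx

/-- **The twists over the multiquadratic fields.** -/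
theorem field_of {c : ℤ × ℤ} {𝒬 : Set ℕ} (hc : Cube c 𝒬) (hD : 4 * c.1 ^ 3 + 27 * c.2 ^ 2 ≠ 0)
    {e : ℤ} (he : e ^ 3 + c.1 * e + c.2 = 0) {D : Finset ℕ} (hDQ : (D : Set ℕ) ⊆ 𝒬)
    (hod : Odd D.card) {n : ℕ} (T : Fin n → Finset ℕ)
    (hT : ∀ i, (T i : Set ℕ) ⊆ 𝒬 ∧ Even (T i).card) (K : Type) [Field K] [NumberField K]
    {x : Fin n → K} (hx : ∀ i, x i ^ 2 = ((pT (T i) : ℤ) : K))
    (hgen : IntermediateField.adjoin ℚ (Set.range x) = ⊤) :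
    Finite (EF ((pT D) ^ 2 * c.1) ((pT D) ^ 3 * c.2) K).toAffine.Point ∧
    F2 (Pool.Agent.TH841.NF.D.Sha (EF ((pT D) ^ 2 * c.1) ((pT D) ^ 3 * c.2) K)) ∧
    Kl (Pool.Agent.TH841.NF.D.Sha (EF ((pT D) ^ 2 * c.1) ((pT D) ^ 3 * c.2) K)) n := by
  obtain ⟨-, hp, hcub⟩ := hc
  have hTp : ∀ {S : Finset ℕ}, (S : Set ℕ) ⊆ 𝒬 → ∀ q ∈ S, q.Prime := fun h q hq => hp q (h hq)
  have hd0 := pT_ne (hTp hDQ)
  have hm0 : ∀ i, pT (T i) ≠ 0 := fun i => pT_ne (hTp (hT i).1)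
  have hD1 := Pool.Agent.Y723.QT.disc_q hd0 hD
  have he1 := Pool.Agent.Y723.QT.root_q (q := pT D) he
  have key : ∀ I : Finset (Fin n), Pool.Agent.TH841.SH.D.rk
      (Sh ((∏ i ∈ I, pT (T i)) ^ 2 * ((pT D) ^ 2 * c.1))
        ((∏ i ∈ I, pT (T i)) ^ 3 * ((pT D) ^ 3 * c.2))) = 0 ∧
      Kl (Pool.Agent.TH841.SH.D.Sha (Sh ((∏ i ∈ I, pT (T i)) ^ 2 * ((pT D) ^ 2 * c.1))
        ((∏ i ∈ I, pT (T i)) ^ 3 * ((pT D) ^ 3 * c.2)))) 0 := by
    intro I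
    obtain ⟨D', k, h1, h2, h3, h4⟩ := prod_sd hDQ hod hp T hT I
    have e1 : (∏ i ∈ I, pT (T i)) ^ 2 * ((pT D) ^ 2 * c.1) = k ^ 4 * ((pT D') ^ 2 * c.1) := by
      calc (∏ i ∈ I, pT (T i)) ^ 2 * ((pT D) ^ 2 * c.1) =
          ((∏ i ∈ I, pT (T i)) * pT D) ^ 2 * c.1 := by ring
        _ = _ := by rw [h4]; ring
    have e2 : (∏ i ∈ I, pT (T i)) ^ 3 * ((pT D) ^ 3 * c.2) = k ^ 6 * ((pT D') ^ 3 * c.2) := by
      calc (∏ i ∈ I, pT (T i)) ^ 3 * ((pT D) ^ 3 * c.2) =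
          ((∏ i ∈ I, pT (T i)) * pT D) ^ 3 * c.2 := by ring
        _ = _ := by rw [h4]; ring
    rw [e1, e2]
    exact tv_scale h3 (Pool.Agent.Y723.QT.disc_q (pT_ne (hTp h1)) hD) (hcub D' h1 h2)
  have hk : Kl (Pool.Agent.TH841.NF.D.Sha (EF ((pT D) ^ 2 * c.1) ((pT D) ^ 3 * c.2) K)) n := by
    have h := base_kl (r := x) (d := fun i => ((pT (T i) : ℤ) : ℚ)) (fun i => by
      rw [hx i, map_intCast]) (fun i => by exact_mod_cast hm0 i) hgen
      (A := (pT D) ^ 2 * c.1) (B := (pT D) ^ 3 * c.2) (n := 0) (fun I => by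
        rw [Pool.Agent.TH841.NF.tw_Sh]
        exact (key I).2)
    rwa [add_zero] at h
  refine ⟨?_, (f2_iff (tf_EF (F := K) hD1 he1)).2 ⟨n, hk⟩, hk⟩
  -- the rank
  have hfg : Module.Finite ℤ (MP (EF ((pT D) ^ 2 * c.1) ((pT D) ^ 3 * c.2) K)) :=
    fg_EF (F := K) hD1 he1
  have hr : Module.finrank ℤ (MP (EF ((pT D) ^ 2 * c.1) ((pT D) ^ 3 * c.2) K)) = 0 := by
    classical
    have h3 := Pool.Agent.W307.RS.mq2 K n x (fun i => pT (T i)) hx hm0 hgen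
      ((pT D) ^ 2 * c.1) ((pT D) ^ 3 * c.2) hD1
    have h4 : ∑ I : Finset (Fin n), Module.rank ℤ
        (Sh ((∏ i ∈ I, pT (T i)) ^ 2 * ((pT D) ^ 2 * c.1))
          ((∏ i ∈ I, pT (T i)) ^ 3 * ((pT D) ^ 3 * c.2))).toAffine.Point = 0 := by
      refine sum_eq_zero fun I _ => ?_
      have hz : (∏ i ∈ I, pT (T i)) ≠ 0 := prod_ne_zero_iff.2 fun i _ => hm0 i
      have h5 := Pool.Agent.Y723.QT.fg_Q (Pool.Agent.Y723.QT.disc_q hz hD1)
        (Pool.Agent.Y723.QT.root_q (q := ∏ i ∈ I, pT (T i)) he1)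
      rw [← Module.finrank_eq_rank]
      exact_mod_cast (key I).1
    rw [h4] at h3
    exact Nat.le_zero.1 (Module.finrank_le_of_rank_le (by exact_mod_cast h3))
  have ht : Module.IsTorsion ℤ (MP (EF ((pT D) ^ 2 * c.1) ((pT D) ^ 3 * c.2) K)) :=
    Module.finrank_eq_zero_iff_isTorsion.1 hr
  have hf : Finite (MP (EF ((pT D) ^ 2 * c.1) ((pT D) ^ 3 * c.2) K)) :=
    Module.finite_of_fg_torsion _ ht
  exact hf

end Pool.Agent.K1H97.CU
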