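import Pool.Agent.Y676.Sel4

/-!
# The local condition at a prime which divides the twist exactly once
-/

set_option autoImplicit false

namespace Pool.Agent.K1H97.CU

open Pool.Agent.Y676
open Pool.Agent.W307.SE (Loc)

section

variable {q : ℕ} [hq : Fact q.Prime]

lemma no_half {w : ℚ_[q]} (h : ‖w‖ ^ 2 = (q : ℝ)⁻¹) : False := by
  have hq1 : (1 : ℝ) < q := by exact_mod_cast hq.out.one_lt
  have hw : w ≠ 0 := by
    rintro rfl
    rw [norm_zero, zero_pow two_ne_zero] at h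
    have : (0 : ℝ) < (q : ℝ)⁻¹ := by positivity
    linarith
  rw [Padic.norm_eq_zpow_neg_valuation hw, ← zpow_natCast, ← zpow_mul, ← zpow_neg_one] at h
  have h1 := zpow_right_injective₀ (by linarith : (0 : ℝ) < q) hq1.ne' h
  omega

lemma norm_unit {m : ℤ} (hm : ¬ (q : ℤ) ∣ m) : ‖(m : ℚ_[q])‖ = 1 := by
  have h1 : ¬ ‖(m : ℚ_[q])‖ < 1 := by rwa [Padic.norm_intCast_lt_one_iff]
  exact le_antisymm (Padic.norm_int_le_one m) (not_lt.1 h1)

lemma norm_qm {m : ℤ} (hm : ¬ (q : ℤ) ∣ m) : ‖((q * m : ℤ) : ℚ_[q])‖ = (q : ℝ)⁻¹ := by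
  push_cast
  rw [norm_mul, Padic.norm_p, norm_unit hm, mul_one]

/-- an unramified class at an additive prime is trivial -/
lemma add_unr (hq2 : q ≠ 2) {A B d : ℤ} (dA : ¬ (q : ℤ) ∣ A) (dB : ¬ (q : ℤ) ∣ B) {d' : ℤ}
    (hd : d = q * d') (hd' : ¬ (q : ℤ) ∣ d') {h1 h2 : ℤ} (n1 : ¬ (q : ℤ) ∣ h1)
    (n2 : ¬ (q : ℤ) ∣ h2) (h : Loc ℚ_[q] (d * A) (d * B) h1 h2) :
    jacobiSym h1 q = 1 ∧ jacobiSym h2 q = 1 := by
  have hqi : Prime (q : ℤ) := Nat.prime_iff_prime_int.1 hq.out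
  obtain ⟨x, y, hy, hxy, ⟨u, hu⟩, ⟨v, hv⟩⟩ := h
  obtain ⟨x0, x1, x2⟩ := loc_ne hy hxy
  have na : ‖((d * A : ℤ) : ℚ_[q])‖ = (q : ℝ)⁻¹ := by
    have e : d * A = q * (d' * A) := by rw [hd]; ring
    rw [e]
    exact norm_qm (fun h => (hqi.dvd_or_dvd h).elim hd' dA)
  have nb : ‖((d * B : ℤ) : ℚ_[q])‖ = (q : ℝ)⁻¹ := by
    have e : d * B = q * (d' * B) := by rw [hd]; ring
    rw [e]
    exact norm_qm (fun h => (hqi.dvd_or_dvd h).elim hd' dB)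
  obtain ⟨a, ha⟩ : ∃ a : ℚ_[q], a = ((d * A : ℤ) : ℚ_[q]) := ⟨_, rfl⟩
  obtain ⟨b, hb⟩ : ∃ b : ℚ_[q], b = ((d * B : ℤ) : ℚ_[q]) := ⟨_, rfl⟩
  rw [← ha] at na x1 hxy hv
  rw [← hb] at nb x2 hxy
  have nu : ‖x‖ = ‖u‖ ^ 2 := by
    have := congrArg norm hu
    rwa [norm_mul, norm_mul, norm_unit n1, mul_one, ← pow_two] at this
  have nv : ‖x - a‖ = ‖v‖ ^ 2 := by
    have := congrArg norm hv
    rwa [norm_mul, norm_mul, norm_unit n2, mul_one, ← pow_two] at this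
  rcases lt_trichotomy ‖x‖ (q : ℝ)⁻¹ with hx | hx | hx
  · exfalso
    have h3 : ‖x - a‖ = ‖a‖ := by
      rw [← norm_neg (x - a), neg_sub, sub_eq_add_neg]
      have hne : ‖a‖ ≠ ‖-x‖ := by
        rw [norm_neg, na]
        exact hx.ne'
      rw [Padic.add_eq_max_of_ne hne, norm_neg, na]
      exact max_eq_left hx.le
    rw [na, nv] at h3
    exact no_half h3
  · exfalso
    rw [nu] at hx
    exact no_half hx
  · have s1 : IsSquare (x * (x - a)) := (Pool.Agent.W407.SE.near hq2 x (x - a) (by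
      rw [sub_sub_cancel, na]; exact hx)).1
    have s2 : IsSquare (x * (x - b)) := (Pool.Agent.W407.SE.near hq2 x (x - b) (by
      rw [sub_sub_cancel, nb]; exact hx)).1
    have s3 : IsSquare x := by
      obtain ⟨z1, hz1⟩ := s1
      obtain ⟨z2, hz2⟩ := s2
      refine ⟨z1 * z2 / y, ?_⟩
      rw [div_mul_div_comm, eq_div_iff (mul_ne_zero hy hy)]
      calc x * (y * y) = x * (y ^ 2) := by ring
        _ = (x * (x - a)) * (x * (x - b)) := by rw [hxy]; ring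
        _ = _ := by rw [hz1, hz2]; ring
    obtain ⟨r, hr⟩ := s3
    have hr0 : r ≠ 0 := by
      rintro rfl
      exact x0 (by rw [hr, mul_zero])
    have t1 : IsSquare ((h1 : ℤ) : ℚ_[q]) := by
      refine ⟨u / r, ?_⟩
      rw [div_mul_div_comm, eq_div_iff (mul_ne_zero hr0 hr0), ← hu, ← hr, mul_comm]
    have t2 : IsSquare ((h2 : ℤ) : ℚ_[q]) := by
      obtain ⟨z1, hz1⟩ := s1
      have hz0 : z1 ≠ 0 := by
        rintro rfl
        rw [mul_zero] at hz1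
        exact (mul_ne_zero x0 x1) hz1
      refine ⟨v * r / z1, ?_⟩
      rw [div_mul_div_comm, eq_div_iff (mul_ne_zero hz0 hz0), ← hz1]
      calc (h2 : ℚ_[q]) * (x * (x - a)) = ((x - a) * h2) * x := by ring
        _ = _ := by rw [hv, hr]; ring
    exact ⟨Pool.Agent.W407.SE.jac h1 n1 t1, Pool.Agent.W407.SE.jac h2 n2 t2⟩

end

section

variable {q : ℕ} [hq : Fact q.Prime]

/-- the condition at an additive prime for classes given by units after the translation -/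
lemma add_cls (hq2 : q ≠ 2) {A B d : ℤ} (dA : ¬ (q : ℤ) ∣ A) (dB : ¬ (q : ℤ) ∣ B)
    (dAB : ¬ (q : ℤ) ∣ A - B) {d' : ℤ} (hd : d = q * d') (hd' : ¬ (q : ℤ) ∣ d') {f1 f2 : ℤ}
    (h : Loc ℚ_[q] (d * A) (d * B) f1 f2) (v w : Bool) {m1 m2 : ℤ}
    (e1 : f1 * (TT (d * A) (d * B) v w).1 = q ^ 2 * m1)
    (e2 : f2 * (TT (d * A) (d * B) v w).2 = q ^ 2 * m2)
    (n1 : ¬ (q : ℤ) ∣ m1) (n2 : ¬ (q : ℤ) ∣ m2) :
    jacobiSym m1 q = 1 ∧ jacobiSym m2 q = 1 := by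
  have hqi : Prime (q : ℤ) := Nat.prime_iff_prime_int.1 hq.out
  have hd0 : d ≠ 0 := by
    rw [hd]
    exact mul_ne_zero hqi.ne_zero (fun h => hd' (by rw [h]; exact dvd_zero _))
  have hA0 : A ≠ 0 := fun h => dA (by rw [h]; exact dvd_zero _)
  have hB0 : B ≠ 0 := fun h => dB (by rw [h]; exact dvd_zero _)
  have hAB0 : A - B ≠ 0 := fun h => dAB (by rw [h]; exact dvd_zero _)
  have hne : ∀ {u : ℤ}, u ≠ 0 → ((u : ℤ) : ℚ_[q]) ≠ 0 := fun h => by exact_mod_cast h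
  have hm1 : m1 ≠ 0 := fun h => n1 (by rw [h]; exact dvd_zero _)
  have hm2 : m2 ≠ 0 := fun h => n2 (by rw [h]; exact dvd_zero _)
  have hk := loc_TT (hne (mul_ne_zero hd0 hA0)) (hne (mul_ne_zero hd0 hB0)) (by
    have : ((d * A : ℤ) : ℚ_[q]) - ((d * B : ℤ) : ℚ_[q]) = ((d * (A - B) : ℤ) : ℚ_[q]) := by
      push_cast; ring
    rw [this]
    exact hne (mul_ne_zero hd0 hAB0)) h v w
  have hq2' : (q : ℤ) ^ 2 ≠ 0 := pow_ne_zero 2 hqi.ne_zero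
  rw [e1, e2] at hk
  refine add_unr hq2 dA dB hd hd' n1 n2 (loc_cls (mul_ne_zero hq2' hm1) (mul_ne_zero hq2' hm2)
    ⟨q * m1, by ring⟩ ⟨q * m2, by ring⟩ hk)

end

end Pool.Agent.K1H97.CU
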