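import Pool.Agent.K1H97.CU.Core
import Pool.Agent.Y676.One

/-!
# The twist by a product of an odd number of primes: four Selmer classes
-/

set_option autoImplicit false

namespace Pool.Agent.K1H97.CU

open Finset
open Pool.Agent.Y676
open Pool.Agent.W307.SE (Loc)
open Pool.Agent.W307.RT (Sh)
open Pool.Agent.TH841.SH (SelG LocC isR_Sh)
open Pool.Agent.W262.RK (dv sgn sg0 LL LocH)

/-- **the Selmer classes are the classes of the torsion points** -/
theorem selT_cls {Y : ℕ} {A B : ℤ} (hY : 2 ≤ Y) (h1 : Ty1 Y A B) {s : ℕ → Bool}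
    (hs : ∀ e, InS Y A B s e → e = (1, 1)) {xs : ℤ} {T : Finset ℕ} (hT : GoodT Y A B s xs T)
    {e : ℤ × ℤ} (he : InSel (pT T * A) (pT T * B) e) :
    IsSquare (e.1 * (TT (pT T * A) (pT T * B) (decide (Odd (vT T e.1)))
      (decide (Odd (vT T e.2)))).1) ∧
    IsSquare (e.2 * (TT (pT T * A) (pT T * B) (decide (Odd (vT T e.1)))
      (decide (Odd (vT T e.2)))).2) := by
  have hTp : ∀ q ∈ T, q.Prime := fun q hq => (hT.gd q hq).pr
  obtain ⟨q, hq⟩ := card_pos.1 hT.od.pos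
  have hN : A * B * (A - B) ≠ 0 := fun h => (hT.gd q hq).nd (by rw [h]; exact dvd_zero _)
  have hA : A ≠ 0 := left_ne_zero_of_mul (left_ne_zero_of_mul hN)
  have hB : B ≠ 0 := right_ne_zero_of_mul (left_ne_zero_of_mul hN)
  have hAB : A - B ≠ 0 := right_ne_zero_of_mul hN
  have hBA : B - A ≠ 0 := fun h => hAB (by omega)
  have hd := pT_ne hTp
  have dA : ∀ q ∈ T, ¬ (q : ℤ) ∣ A := fun q hq h =>
    (hT.gd q hq).nd ((h.mul_right _).mul_right _)
  have dB : ∀ q ∈ T, ¬ (q : ℤ) ∣ B := fun q hq h => (hT.gd q hq).nd ((h.mul_left _).mul_right _)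
  have dAB : ∀ q ∈ T, ¬ (q : ℤ) ∣ A - B := fun q hq h => (hT.gd q hq).nd (h.mul_left _)
  have dBA : ∀ q ∈ T, ¬ (q : ℤ) ∣ B - A := fun q hq h => dAB q hq (by
    have : A - B = -(B - A) := by ring
    rw [this]
    exact (dvd_neg).2 h)
  have nd : ∀ q ∈ T, ∀ {u v : ℤ}, ¬ (q : ℤ) ∣ u → ¬ (q : ℤ) ∣ v → ¬ (q : ℤ) ∣ u * v := by
    intro q hq u v hu hv h
    exact ((Nat.prime_iff_prime_int.1 (hTp q hq)).dvd_or_dvd h).elim hu hv
  have e3 : pT T * A - pT T * B ≠ 0 := by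
    rw [← mul_sub]
    exact mul_ne_zero hd hAB
  obtain ⟨v, hv⟩ : ∃ v, v = decide (Odd (vT T e.1)) := ⟨_, rfl⟩
  obtain ⟨w, hw⟩ : ∃ w, w = decide (Odd (vT T e.2)) := ⟨_, rfl⟩
  rw [← hv, ← hw]
  obtain ⟨f, hf, s1, s2⟩ := sel_TT (mul_ne_zero hd hA) (mul_ne_zero hd hB) e3 he v w
  -- the number of the prime factors of the translation
  have t0 : (TT (pT T * A) (pT T * B) v w).1 ≠ 0 ∧ (TT (pT T * A) (pT T * B) v w).2 ≠ 0 := by
    unfold TT
    have h1 := mul_ne_zero hd hA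
    have h2 := mul_ne_zero hd hB
    have h3 : pT T * B - pT T * A ≠ 0 := fun h => e3 (by omega)
    cases v <;> cases w
    · exact ⟨one_ne_zero, one_ne_zero⟩
    · exact ⟨mul_ne_zero h1 h2, neg_ne_zero.2 h1⟩
    · exact ⟨h1, mul_ne_zero h1 e3⟩
    · exact ⟨h2, h3⟩
  have t1 : Even (vT T (TT (pT T * A) (pT T * B) v w).1 + (if v then 1 else 0)) ∧
      Even (vT T (TT (pT T * A) (pT T * B) v w).2 + (if w then 1 else 0)) := by
    have hod := hT.od
    have p0 : vT T 1 = 0 := by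
      rw [vT_pow hTp 0 (m := 1) (by rw [pow_zero, one_mul]) (fun q hq h =>
        (Nat.prime_iff_prime_int.1 (hTp q hq)).not_isUnit (isUnit_of_dvd_one h)) one_ne_zero,
        zero_mul]
    have p1 : ∀ {n m : ℤ}, n = pT T * m → (∀ q ∈ T, ¬ (q : ℤ) ∣ m) → m ≠ 0 →
        vT T n = T.card := by
      intro n m hn hm hm0
      rw [vT_pow hTp 1 (by rw [pow_one]; exact hn) hm hm0, one_mul]
    have p2 : ∀ {n m : ℤ}, n = pT T ^ 2 * m → (∀ q ∈ T, ¬ (q : ℤ) ∣ m) → m ≠ 0 →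
        vT T n = 2 * T.card := fun hn hm hm0 => vT_pow hTp 2 hn hm hm0
    unfold TT
    cases v <;> cases w
    · exact ⟨by change Even (vT T 1 + 0); rw [p0]; exact ⟨0, rfl⟩,
        by change Even (vT T 1 + 0); rw [p0]; exact ⟨0, rfl⟩⟩
    · constructor
      · change Even (vT T (pT T * A * (pT T * B)) + 0)
        rw [p2 (m := A * B) (by ring) (fun q hq => nd q hq (dA q hq) (dB q hq))
          (mul_ne_zero hA hB)]
        exact ⟨T.card, by ring⟩
      · change Even (vT T (-(pT T * A)) + 1)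
        rw [p1 (m := -A) (by ring) (fun q hq h => dA q hq ((dvd_neg).1 h)) (neg_ne_zero.2 hA)]
        exact hod.add_one
    · constructor
      · change Even (vT T (pT T * A) + 1)
        rw [p1 (m := A) rfl dA hA]
        exact hod.add_one
      · change Even (vT T (pT T * A * (pT T * A - pT T * B)) + 0)
        rw [p2 (m := A * (A - B)) (by ring) (fun q hq => nd q hq (dA q hq) (dAB q hq))
          (mul_ne_zero hA hAB)]
        exact ⟨T.card, by ring⟩
    · constructor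
      · change Even (vT T (pT T * B) + 1)
        rw [p1 (m := B) rfl dB hB]
        exact hod.add_one
      · change Even (vT T (pT T * B - pT T * A) + 1)
        rw [p1 (m := B - A) (by ring) dBA hBA]
        exact hod.add_one
  have hpar : ∀ {n t g : ℤ} {b : Bool}, n ≠ 0 → t ≠ 0 → Squarefree g → IsSquare (n * t * g) →
      b = decide (Odd (vT T n)) → Even (vT T t + (if b then 1 else 0)) →
      Even (T.filter (fun q : ℕ => (q : ℤ) ∣ g)).card := by
    intro n t g b hn ht hg hsq hb hev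
    rw [← vT_sqf T hTp hg]
    have h5 := vT_sq T (mul_ne_zero (mul_ne_zero hn ht) hg.ne_zero) hsq
    rw [vT_mul T (mul_ne_zero hn ht) hg.ne_zero, vT_mul T hn ht] at h5
    by_cases ho : Odd (vT T n)
    · rw [hb, decide_eq_true ho, if_pos rfl] at hev
      rw [Nat.even_iff] at hev h5 ⊢
      rw [Nat.odd_iff] at ho
      omega
    · rw [hb, decide_eq_false ho] at hev
      rw [Nat.not_odd_iff_even] at ho
      rw [Nat.even_iff] at hev h5 ho ⊢
      simp only [Bool.false_eq_true, if_false] at hev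
      omega
  have h11 := triv hY h1 hs hT hf (hpar he.sq1.ne_zero t0.1 hf.sq1 s1 hv t1.1)
    (hpar he.sq2.ne_zero t0.2 hf.sq2 s2 hw t1.2)
  rw [h11] at s1 s2
  simp only [mul_one] at s1 s2
  exact ⟨s1, s2⟩

/-- **at most four Selmer classes** -/
theorem selT_card {Y : ℕ} {A B : ℤ} (hY : 2 ≤ Y) (h1 : Ty1 Y A B) {s : ℕ → Bool}
    (hs : ∀ e, InS Y A B s e → e = (1, 1)) {xs : ℤ} {T : Finset ℕ} (hT : GoodT Y A B s xs T) :
    {e | InSel (pT T * A) (pT T * B) e}.Finite ∧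
      {e | InSel (pT T * A) (pT T * B) e}.ncard ≤ 4 := by
  have hTp : ∀ q ∈ T, q.Prime := fun q hq => (hT.gd q hq).pr
  obtain ⟨q, hq⟩ := card_pos.1 hT.od.pos
  have hN : A * B * (A - B) ≠ 0 := fun h => (hT.gd q hq).nd (by rw [h]; exact dvd_zero _)
  have hd := pT_ne hTp
  have hA : pT T * A ≠ 0 := mul_ne_zero hd (left_ne_zero_of_mul (left_ne_zero_of_mul hN))
  have hB : pT T * B ≠ 0 := mul_ne_zero hd (right_ne_zero_of_mul (left_ne_zero_of_mul hN))
  have hAB : pT T * A - pT T * B ≠ 0 := by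
    rw [← mul_sub]
    exact mul_ne_zero hd (right_ne_zero_of_mul hN)
  have hBA : pT T * B - pT T * A ≠ 0 := fun h => hAB (by omega)
  have ht : ∀ v w, (TT (pT T * A) (pT T * B) v w).1 ≠ 0 ∧
      (TT (pT T * A) (pT T * B) v w).2 ≠ 0 := by
    intro v w
    unfold TT
    cases v <;> cases w
    · exact ⟨one_ne_zero, one_ne_zero⟩
    · exact ⟨mul_ne_zero hA hB, neg_ne_zero.2 hA⟩
    · exact ⟨hA, mul_ne_zero hA hAB⟩
    · exact ⟨hB, hBA⟩
  have hinj : Set.InjOn (fun e : ℤ × ℤ => (decide (Odd (vT T e.1)), decide (Odd (vT T e.2))))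
      {e | InSel (pT T * A) (pT T * B) e} := by
    intro e he f hf hef
    simp only [Prod.mk.injEq] at hef
    obtain ⟨a1, a2⟩ := selT_cls hY h1 hs hT he
    obtain ⟨b1, b2⟩ := selT_cls hY h1 hs hT hf
    rw [← hef.1, ← hef.2] at b1 b2
    obtain ⟨t1, t2⟩ := ht (decide (Odd (vT T e.1))) (decide (Odd (vT T e.2)))
    have hsq : ∀ {u v t : ℤ}, t ≠ 0 → IsSquare (u * t) → IsSquare (v * t) →
        IsSquare ((u : ℚ) * v) := by
      intro u v t ht0 h1 h2
      have ht0' : (t : ℚ) ≠ 0 := by exact_mod_cast ht0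
      refine sq_mul_trans ht0' ?_ ?_
      · have := h1.map (Int.castRingHom ℚ)
        simpa using this
      · have := h2.map (Int.castRingHom ℚ)
        rw [mul_comm]
        simpa using this
    exact Prod.ext (Pool.Agent.W839.SH.sqf_eq he.sq1 hf.sq1 (hsq t1 a1 b1))
      (Pool.Agent.W839.SH.sqf_eq he.sq2 hf.sq2 (hsq t2 a2 b2))
  have hfin : {e | InSel (pT T * A) (pT T * B) e}.Finite :=
    Set.Finite.of_finite_image (Set.toFinite _) hinj
  refine ⟨hfin, ?_⟩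
  rw [← hinj.ncard_image]
  refine (Set.ncard_le_ncard (Set.subset_univ _) (Set.toFinite _)).trans ?_
  rw [Set.ncard_univ, Nat.card_eq_fintype_card]
  decide

/-- **The twist by an odd number of good primes.** -/
theorem tw_cube {c : ℤ × ℤ} {e1 e2 e3 : ℤ}
    (hr : ∀ x : ℤ, x ^ 3 + c.1 * x + c.2 = (x - e1) * (x - e2) * (x - e3)) {Y : ℕ} (hY : 2 ≤ Y)
    (h1 : Ty1 Y (e2 - e1) (e3 - e1)) {s : ℕ → Bool}
    (hs : ∀ e, InS Y (e2 - e1) (e3 - e1) s e → e = (1, 1)) {xs : ℤ} {T : Finset ℕ}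
    (hT : GoodT Y (e2 - e1) (e3 - e1) s xs T) :
    Pool.Agent.TH841.SH.D.rk (Sh ((pT T) ^ 2 * c.1) ((pT T) ^ 3 * c.2)) = 0 ∧
      ∀ j : ℕ, Subsingleton (Pool.Agent.TH841.SH.D.ShaTor
        (Sh ((pT T) ^ 2 * c.1) ((pT T) ^ 3 * c.2)) (2 ^ j)) := by
  obtain ⟨A, hA⟩ : ∃ A, A = e2 - e1 := ⟨_, rfl⟩
  obtain ⟨B, hB⟩ : ∃ B, B = e3 - e1 := ⟨_, rfl⟩
  rw [← hA, ← hB] at h1 hs hT
  have hTp : ∀ q ∈ T, q.Prime := fun q hq => (hT.gd q hq).pr
  obtain ⟨q, hq⟩ := card_pos.1 hT.od.pos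
  have hqp := hTp q hq
  have hqi : Prime (q : ℤ) := Nat.prime_iff_prime_int.1 hqp
  have hnd := (hT.gd q hq).nd
  have dA : ¬ (q : ℤ) ∣ A := fun h => hnd ((h.mul_right _).mul_right _)
  have dB : ¬ (q : ℤ) ∣ B := fun h => hnd ((h.mul_left _).mul_right _)
  have hN : A * B * (A - B) ≠ 0 := fun h => hnd (by rw [h]; exact dvd_zero _)
  have hA0 : A ≠ 0 := left_ne_zero_of_mul (left_ne_zero_of_mul hN)
  have hB0 : B ≠ 0 := right_ne_zero_of_mul (left_ne_zero_of_mul hN)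
  have hAB0 : A - B ≠ 0 := right_ne_zero_of_mul hN
  have hd0 := pT_ne hTp
  have hd := pT_erase hq
  have nd' : ¬ (q : ℤ) ∣ pT (T.erase q) :=
    nd_pT (fun r hr => hTp r (mem_of_mem_erase hr)) hqp (notMem_erase q T)
  have nd : ∀ {u v : ℤ}, ¬ (q : ℤ) ∣ u → ¬ (q : ℤ) ∣ v → ¬ (q : ℤ) ∣ u * v := by
    intro u v hu hv h
    exact (hqi.dvd_or_dvd h).elim hu hv
  have hr' := roots_tw hr (pT T)
  have hR := isR_Sh hr'
  have hsub : SelG (pT T * e1) (pT T * e2) (pT T * e3) ⊆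
      {e | InSel (pT T * A) (pT T * B) e} := by
    rintro e ⟨k1, k2, k3, k4⟩
    have ea : pT T * A = pT T * e2 - pT T * e1 := by rw [hA]; ring
    have eb : pT T * B = pT T * e3 - pT T * e1 := by rw [hB]; ring
    refine ⟨k1, k2, ?_, fun p _ => ?_⟩
    · rw [ea, eb]
      exact loc_of_locC k3
    · rw [ea, eb]
      exact loc_of_locC (k4 p)
  obtain ⟨hfin, hcard⟩ := selT_card hY h1 hs hT
  obtain ⟨g1, g2⟩ := sha4 (Sh ((pT T) ^ 2 * c.1) ((pT T) ^ 3 * c.2)) (pT T * e1) (pT T * e2)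
    (pT T * e3) (by exact_mod_cast hR)
    (fun h => hA0 (by rw [hA]; exact sub_eq_zero.2 (mul_left_cancel₀ hd0 h).symm))
    (fun h => hB0 (by rw [hB]; exact sub_eq_zero.2 (mul_left_cancel₀ hd0 h).symm))
    (fun h => hAB0 (by
      have := mul_left_cancel₀ hd0 h
      rw [hA, hB, this]
      ring))
    (hfin.subset hsub) ((Set.ncard_le_ncard hsub hfin).trans hcard)
    (by
      have e : ((pT T * e1 : ℤ) : ℚ) - ((pT T * e2 : ℤ) : ℚ) =
          ((q * (-(pT (T.erase q) * A)) : ℤ) : ℚ) := by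
        rw [hA, hd]; push_cast; ring
      rw [e]
      exact nsq hqp (fun h => nd nd' dA ((dvd_neg).1 h)))
    (by
      have e : ((pT T * e2 : ℤ) : ℚ) - ((pT T * e1 : ℤ) : ℚ) =
          ((q * (pT (T.erase q) * A) : ℤ) : ℚ) := by
        rw [hA, hd]; push_cast; ring
      rw [e]
      exact nsq hqp (nd nd' dA))
    (by
      have e : ((pT T * e3 : ℤ) : ℚ) - ((pT T * e1 : ℤ) : ℚ) =
          ((q * (pT (T.erase q) * B) : ℤ) : ℚ) := by
        rw [hB, hd]; push_cast; ring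
      rw [e]
      exact nsq hqp (nd nd' dB))
  exact ⟨g1, fun j => sub_tor g2 j⟩

end Pool.Agent.K1H97.CU
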