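import Pool.Agent.K1H97.CU.Sel

/-!
# The Selmer classes of the twist by a product of an odd number of primes
-/

set_option autoImplicit false

namespace Pool.Agent.K1H97.CU

open Finset
open Pool.Agent.Y676
open Pool.Agent.W307.SE (Loc)
open Pool.Agent.W262.RK (dv sgn sg0 LL LocH)

lemma cls_F {K : Type} [Field K] {F g n : ℤ} (hn : n = F * g) (hF : IsSquare (F : K)) :
    IsSquare ((n : K) * g) := by
  obtain ⟨r, hr⟩ := hF
  refine ⟨r * g, ?_⟩
  rw [hn]
  push_cast
  rw [hr]
  ring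

lemma jac_kap {A B q : ℤ} {b : Bool} {p : ℕ} (hp : p.Prime) (hu : ¬ (p : ℤ) ∣ uAB A B p)
    (hq : ¬ (p : ℤ) ∣ q) (h : sQ A B q p = b) : jacobiSym q p = kap A B b p := by
  have h1 := sg0_pm hp hu
  have h2 := sg0_pm hp hq
  rw [sQ_eq] at h
  have e : sg0 p (q * uAB A B p) = decide (jacobiSym (q * uAB A B p) p = -1) := rfl
  rw [e, jacobiSym.mul_left, h1, h2] at h
  unfold kap
  rw [h1, h2]
  revert h
  generalize sg0 p (uAB A B p) = c
  generalize sg0 p q = c'
  cases b <;> cases c <;> cases c' <;> decide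

lemma nd_pT {T : Finset ℕ} (hT : ∀ q ∈ T, q.Prime) {p : ℕ} (hp : p.Prime) (h : p ∉ T) :
    ¬ (p : ℤ) ∣ pT T := by
  intro hd
  unfold pT at hd
  obtain ⟨q, hq, hpq⟩ := (hp.prime.dvd_finsetProd_iff _).1 (Int.natCast_dvd_natCast.1 hd)
  exact h (((Nat.prime_dvd_prime_iff_eq hp (hT q hq)).1 hpq) ▸ hq)

lemma pm_odd {c : ℤ} (h : c = 1 ∨ c = -1) {n : ℕ} (hn : Odd n) : c ^ n = c := by
  rcases h with rfl | rfl
  · exact one_pow n
  · exact hn.neg_one_pow

lemma pm_even {c : ℤ} (h : c = 1 ∨ c = -1) {n : ℕ} (hn : Even n) : c ^ n = 1 := by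
  rcases h with rfl | rfl
  · exact one_pow n
  · exact hn.neg_one_pow

/-- **the classes with an even number of the primes** -/
theorem core {Y : ℕ} {A B : ℤ} (hY : 2 ≤ Y) (h1 : Ty1 Y A B) {s : ℕ → Bool}
    (hs : ∀ e, InS Y A B s e → e = (1, 1)) {xs : ℤ} {T : Finset ℕ} (hT : GoodT Y A B s xs T)
    {f : ℤ × ℤ} (hf : InSel (pT T * A) (pT T * B) f)
    (ev1 : Even (T.filter (fun q : ℕ => (q : ℤ) ∣ f.1)).card)
    (ev2 : Even (T.filter (fun q : ℕ => (q : ℤ) ∣ f.2)).card) :
    f.1 = pT (T.filter (fun q : ℕ => (q : ℤ) ∣ f.1)) ∧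
      f.2 = pT (T.filter (fun q : ℕ => (q : ℤ) ∣ f.2)) := by
  have hTp : ∀ q ∈ T, q.Prime := fun q hq => (hT.gd q hq).pr
  have hTne : T.Nonempty := card_pos.1 hT.od.pos
  obtain ⟨T1, hT1⟩ : ∃ T1, T1 = T.filter (fun q : ℕ => (q : ℤ) ∣ f.1) := ⟨_, rfl⟩
  obtain ⟨T2, hT2⟩ : ∃ T2, T2 = T.filter (fun q : ℕ => (q : ℤ) ∣ f.2) := ⟨_, rfl⟩
  have sub1 : T1 ⊆ T := by rw [hT1]; exact filter_subset _ _
  have sub2 : T2 ⊆ T := by rw [hT2]; exact filter_subset _ _
  obtain ⟨g1, e1, sq1, n1⟩ := split T hTp hf.sq1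
  obtain ⟨g2, e2, sq2, n2⟩ := split T hTp hf.sq2
  rw [← hT1] at ev1 e1 ⊢
  rw [← hT2] at ev2 e2 ⊢
  have hf1 := hf.sq1.ne_zero
  have hf2 := hf.sq2.ne_zero
  have key : (g1, g2) = ((1 : ℤ), (1 : ℤ)) := by
    apply hs
    refine ⟨sq1, sq2, ?_, ?_, ?_, ?_⟩
    · have hpos : (0 : ℝ) < (pT T : ℝ) := by exact_mod_cast pT_pos hTp
      have hsqr : ∀ S ⊆ T, IsSquare ((pT S : ℤ) : ℝ) := by
        intro S hS
        have : (0 : ℝ) < (pT S : ℝ) := by exact_mod_cast pT_pos fun q hq => hTp q (hS hq)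
        exact ⟨Real.sqrt (pT S), (Real.mul_self_sqrt this.le).symm⟩
      have h := loc_scale (r := Real.sqrt (pT T)) (Real.sqrt_pos.2 hpos).ne'
        (by rw [Real.sq_sqrt hpos.le]) hf.re
      exact loc_cls' (by exact_mod_cast hf1) (by exact_mod_cast hf2)
        (cls_F e1 (hsqr T1 sub1)) (cls_F e2 (hsqr T2 sub2)) h
    · intro p hp hpY
      have hsqr : ∀ S ⊆ T, IsSquare ((pT S : ℤ) : ℚ_[p]) := fun S hS =>
        isSquare_pT S fun q hq => goodq_sq (hT.gd q (hS hq)) p hpY
      obtain ⟨r, hr⟩ := hsqr T (Subset.refl _)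
      have hr0 : r ≠ 0 := by
        rintro rfl
        rw [mul_zero] at hr
        exact pT_ne hTp (by exact_mod_cast hr)
      have h := loc_scale hr0 (by rw [hr, pow_two]) (hf.lo p)
      exact loc_cls' (by exact_mod_cast hf1) (by exact_mod_cast hf2)
        (cls_F e1 (hsqr T1 sub1)) (cls_F e2 (hsqr T2 sub2)) h
    · intro p hp hYp hN
      have : Fact p.Prime := ⟨hp⟩
      by_cases hpT : p ∈ T
      · exact ⟨n1 p hpT, n2 p hpT⟩
      · have hpi : Prime (p : ℤ) := Nat.prime_iff_prime_int.1 hp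
        have hg := goodp p (pT T * A) (pT T * B) f.1 f.2 (by
          intro h
          have e5 : 2 * (pT T * A) * (pT T * B) * (pT T * A - pT T * B) =
            (2 * (pT T) ^ 3) * (A * B * (A - B)) := by ring
          rw [e5] at h
          rcases hpi.dvd_or_dvd h with h | h
          · rcases hpi.dvd_or_dvd h with h | h
            · have h6 : p ∣ 2 := by exact_mod_cast h
              have := Nat.le_of_dvd (by norm_num) h6
              omega
            · exact nd_pT hTp hp hpT (hpi.dvd_of_dvd_pow h)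
          · exact hN h) hf.sq1 hf.sq2 (hf.lo p)
        refine ⟨fun h => hg.1 ?_, fun h => hg.2 ?_⟩
        · rw [e1]
          exact h.mul_left _
        · rw [e2]
          exact h.mul_left _
    · intro p hp hYp
      have : Fact p.Prime := ⟨hp⟩
      by_cases hN : (p : ℤ) ∣ A * B * (A - B)
      · have hpT : p ∉ T := fun h => (hT.gd p h).nd hN
        have hu := uAB_nd (h1 p hp hYp)
        have hqp : ∀ q ∈ T, ¬ (p : ℤ) ∣ (q : ℤ) := by
          intro q hq h
          have hpq := (Nat.prime_dvd_prime_iff_eq hp (hTp q hq)).1 (by exact_mod_cast h)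
          exact hpT (hpq ▸ hq)
        obtain ⟨hk1, hk2⟩ := kap_spec (b := s p) hp (h1 p hp hYp)
        have hk : ∀ q ∈ T, jacobiSym (q : ℤ) p = kap A B (s p) p := fun q hq =>
          jac_kap hp hu (hqp q hq) ((hT.gd q hq).sg p hp hYp hN)
        have hsQ : sQ A B (pT T) p = s p := by
          apply hk2
          rw [jac_prod T p _ hk, pm_odd hk1 hT.od]
        have hL := lc_of_loc (by omega) (nd_pT hTp hp hpT) (h1 p hp hYp) hf.sq1 hf.sq2 (hf.lo p)
        have a1 := sgn_mul (g := g1) hp (nd_pT (fun q hq => hTp q (sub1 hq)) hp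
          (fun h => hpT (sub1 h))) (by
            rw [jac_prod T1 p _ fun q hq => hk q (sub1 hq), pm_even hk1 ev1])
        have a2 := sgn_mul (g := g2) hp (nd_pT (fun q hq => hTp q (sub2 hq)) hp
          (fun h => hpT (sub2 h))) (by
            rw [jac_prod T2 p _ fun q hq => hk q (sub2 hq), pm_even hk1 ev2])
        rw [← e1] at a1
        rw [← e2] at a2
        unfold Lc at hL ⊢
        rw [a1.1, a1.2, a2.1, a2.2, hsQ] at hL
        exact hL
      · refine ⟨fun h => absurd ?_ hN, fun h => absurd ?_ hN, fun h => absurd ?_ hN⟩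
        · exact (h.mul_right _).mul_right _
        · exact (h.mul_left _).mul_right _
        · exact h.mul_left _
  rw [Prod.mk.injEq] at key
  rw [key.1, mul_one] at e1
  rw [key.2, mul_one] at e2
  exact ⟨e1, e2⟩

lemma pT_erase {T : Finset ℕ} {q : ℕ} (hq : q ∈ T) : pT T = q * pT (T.erase q) := by
  unfold pT
  rw [← mul_prod_erase T (fun q => q) hq]
  push_cast
  rfl

/-- **the classes with an even number of the primes are trivial** -/
theorem triv {Y : ℕ} {A B : ℤ} (hY : 2 ≤ Y) (h1 : Ty1 Y A B) {s : ℕ → Bool}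
    (hs : ∀ e, InS Y A B s e → e = (1, 1)) {xs : ℤ} {T : Finset ℕ} (hT : GoodT Y A B s xs T)
    {f : ℤ × ℤ} (hf : InSel (pT T * A) (pT T * B) f)
    (ev1 : Even (T.filter (fun q : ℕ => (q : ℤ) ∣ f.1)).card)
    (ev2 : Even (T.filter (fun q : ℕ => (q : ℤ) ∣ f.2)).card) : f = (1, 1) := by
  have hTp : ∀ q ∈ T, q.Prime := fun q hq => (hT.gd q hq).pr
  obtain ⟨c1, c2⟩ := core hY h1 hs hT hf ev1 ev2
  obtain ⟨T1, hT1⟩ : ∃ T1, T1 = T.filter (fun q : ℕ => (q : ℤ) ∣ f.1) := ⟨_, rfl⟩
  obtain ⟨T2, hT2⟩ : ∃ T2, T2 = T.filter (fun q : ℕ => (q : ℤ) ∣ f.2) := ⟨_, rfl⟩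
  have sub1 : T1 ⊆ T := by rw [hT1]; exact filter_subset _ _
  have sub2 : T2 ⊆ T := by rw [hT2]; exact filter_subset _ _
  rw [← hT1] at ev1 c1
  rw [← hT2] at ev2 c2
  have hemp : ∀ q ∈ T, q ∉ T1 ∧ q ∉ T2 := by
    intro q hq
    by_contra hcon
    have hqp := hTp q hq
    have : Fact q.Prime := ⟨hqp⟩
    have hqi : Prime (q : ℤ) := Nat.prime_iff_prime_int.1 hqp
    have hg := hT.gd q hq
    have hq8 := hg.m8
    have hq2 : q ≠ 2 := by omega
    have dA : ¬ (q : ℤ) ∣ A := fun h => hg.nd ((h.mul_right _).mul_right _)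
    have dB : ¬ (q : ℤ) ∣ B := fun h => hg.nd ((h.mul_left _).mul_right _)
    have dAB : ¬ (q : ℤ) ∣ A - B := fun h => hg.nd (h.mul_left _)
    have dBA : ¬ (q : ℤ) ∣ B - A := fun h => dAB (by
      have : A - B = -(B - A) := by ring
      rw [this]
      exact (dvd_neg).2 h)
    have nd : ∀ {u v : ℤ}, ¬ (q : ℤ) ∣ u → ¬ (q : ℤ) ∣ v → ¬ (q : ℤ) ∣ u * v := by
      intro u v hu hv h
      exact (hqi.dvd_or_dvd h).elim hu hv
    obtain ⟨d', hd'⟩ : ∃ d', d' = pT (T.erase q) := ⟨_, rfl⟩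
    have hd : pT T = q * d' := by rw [hd']; exact pT_erase hq
    have nd' : ¬ (q : ℤ) ∣ d' := by
      rw [hd']
      exact nd_pT (fun r hr => hTp r (mem_of_mem_erase hr)) hqp (notMem_erase q T)
    have hJ : ∀ S ⊆ T, jacobiSym (pT (S.erase q)) q = xs ^ (S.erase q).card := fun S hS =>
      jac_prod _ q xs fun r hr => hT.sy q hq r (hS (mem_of_mem_erase hr)) (ne_of_mem_erase hr)
    have Jd : jacobiSym d' q = 1 := by
      rw [hd', hJ T (Subset.refl _), card_erase_of_mem hq]
      refine pm_even hT.pm ?_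
      obtain ⟨k, hk⟩ := hT.od
      exact ⟨k, by omega⟩
    have Jin : ∀ S ⊆ T, q ∈ S → Even S.card → jacobiSym (pT (S.erase q)) q = xs := by
      intro S hS hqS hev
      rw [hJ S hS, card_erase_of_mem hqS]
      refine pm_odd hT.pm ?_
      obtain ⟨k, hk⟩ := hev
      have := card_pos.2 ⟨q, hqS⟩
      exact ⟨k - 1, by omega⟩
    have Jout : ∀ S ⊆ T, q ∉ S → Even S.card → jacobiSym (pT S) q = 1 := by
      intro S hS hqS hev
      have h3 := hJ S hS
      rw [erase_eq_of_notMem hqS] at h3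
      rw [h3]
      exact pm_even hT.pm hev
    have nin : ∀ S ⊆ T, ¬ (q : ℤ) ∣ pT (S.erase q) := fun S hS =>
      nd_pT (fun r hr => hTp r (hS (mem_of_mem_erase hr))) hqp (notMem_erase q S)
    have nout : ∀ S ⊆ T, q ∉ S → ¬ (q : ℤ) ∣ pT S := fun S hS hqS =>
      nd_pT (fun r hr => hTp r (hS hr)) hqp hqS
    have J1 : jacobiSym (-1) q = 1 := by
      rw [jacobiSym.at_neg_one (hqp.odd_of_ne_two hq2), ZMod.χ₄_nat_one_mod_four (by omega)]
    have JBA : jacobiSym (B - A) q = jacobiSym (A - B) q := by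
      have : B - A = -1 * (A - B) := by ring
      rw [this, jacobiSym.mul_left, J1, one_mul]
    have hlo := hf.lo q
    by_cases i1 : q ∈ T1 <;> by_cases i2 : q ∈ T2
    · have r := add_cls hq2 dA dB dAB hd nd' hlo true true
        (m1 := pT (T1.erase q) * d' * B) (m2 := pT (T2.erase q) * d' * (B - A))
        (by
          change f.1 * (pT T * B) = _
          rw [c1, pT_erase i1, hd]
          ring)
        (by
          change f.2 * (pT T * B - pT T * A) = _
          rw [c2, pT_erase i2, hd]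
          ring)
        (nd (nd (nin T1 sub1) nd') dB) (nd (nd (nin T2 sub2) nd') dBA)
      rw [jacobiSym.mul_left, jacobiSym.mul_left, jacobiSym.mul_left, jacobiSym.mul_left, Jd,
        Jin T1 sub1 i1 ev1, Jin T2 sub2 i2 ev2, JBA, mul_one] at r
      exact hT.m3 q hq r
    · have r := add_cls hq2 dA dB dAB hd nd' hlo true false
        (m1 := pT (T1.erase q) * d' * A) (m2 := f.2 * (d' * d') * (A * (A - B)))
        (by
          change f.1 * (pT T * A) = _
          rw [c1, pT_erase i1, hd]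
          ring)
        (by
          change f.2 * (pT T * A * (pT T * A - pT T * B)) = _
          rw [hd]
          ring)
        (nd (nd (nin T1 sub1) nd') dA)
        (nd (nd (by rw [c2]; exact nout T2 sub2 i2) (nd nd' nd')) (nd dA dAB))
      rw [jacobiSym.mul_left, jacobiSym.mul_left, jacobiSym.mul_left, jacobiSym.mul_left,
        jacobiSym.mul_left, jacobiSym.mul_left, Jd, Jin T1 sub1 i1 ev1, c2,
        Jout T2 sub2 i2 ev2, mul_one, mul_one, mul_one, one_mul] at r
      exact hT.m1 q hq r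
    · have r := add_cls hq2 dA dB dAB hd nd' hlo false true
        (m1 := f.1 * (d' * d') * (A * B)) (m2 := -1 * (pT (T2.erase q) * d' * A))
        (by
          change f.1 * (pT T * A * (pT T * B)) = _
          rw [hd]
          ring)
        (by
          change f.2 * (-(pT T * A)) = _
          rw [c2, pT_erase i2, hd]
          ring)
        (nd (nd (by rw [c1]; exact nout T1 sub1 i1) (nd nd' nd')) (nd dA dB))
        (by
          have h5 := nd (nd (nin T2 sub2) nd') dA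
          intro h6
          apply h5
          rw [neg_one_mul] at h6
          exact (dvd_neg).1 h6)
      rw [jacobiSym.mul_left, jacobiSym.mul_left, jacobiSym.mul_left, jacobiSym.mul_left,
        jacobiSym.mul_left, jacobiSym.mul_left, jacobiSym.mul_left, J1, Jd,
        Jin T2 sub2 i2 ev2, c1, Jout T1 sub1 i1 ev1, mul_one, mul_one, mul_one, one_mul,
        one_mul] at r
      exact hT.m2 q hq r
    · exact hcon ⟨i1, i2⟩
  have h5 : T1 = ∅ := by
    rw [eq_empty_iff_forall_notMem]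
    exact fun q hq => (hemp q (sub1 hq)).1 hq
  have h6 : T2 = ∅ := by
    rw [eq_empty_iff_forall_notMem]
    exact fun q hq => (hemp q (sub2 hq)).2 hq
  have h7 : pT ∅ = 1 := by
    unfold pT
    simp
  rw [h5, h7] at c1
  rw [h6, h7] at c2
  exact Prod.ext c1 c2

end Pool.Agent.K1H97.CU
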