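import Pool.Agent.K1H97.CU.Add
import Pool.Agent.Y676.Box
import Pool.Agent.Y676.GQ

/-!
# The 2-Selmer group of the twist by a product of an odd number of primes
-/

set_option autoImplicit false

namespace Pool.Agent.K1H97.CU

open Finset
open Pool.Agent.Y676
open Pool.Agent.W307.SE (Loc)
open Pool.Agent.W262.RK (dv sgn sg0 LL LocH)

/-- the conditions on the set of primes: they have the same signs at the bad primes, and the
symbols `(q' | q)` are equal to a constant which avoids three pairs of values -/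
structure GoodT (Y : ℕ) (A B : ℤ) (s : ℕ → Bool) (xs : ℤ) (T : Finset ℕ) : Prop where
  gd : ∀ q ∈ T, GoodQ Y A B s q
  od : Odd T.card
  pm : xs = 1 ∨ xs = -1
  sy : ∀ q ∈ T, ∀ q' ∈ T, q' ≠ q → jacobiSym (q' : ℤ) q = xs
  m1 : ∀ q ∈ T, ¬ (xs * jacobiSym A q = 1 ∧ jacobiSym A q * jacobiSym (A - B) q = 1)
  m2 : ∀ q ∈ T, ¬ (jacobiSym A q * jacobiSym B q = 1 ∧ xs * jacobiSym A q = 1)
  m3 : ∀ q ∈ T, ¬ (xs * jacobiSym B q = 1 ∧ xs * jacobiSym (A - B) q = 1)

/-- the product of the primes -/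
def pT (T : Finset ℕ) : ℤ := ((∏ q ∈ T, q : ℕ) : ℤ)

/-- the number of the prime factors in `T` -/
def vT (T : Finset ℕ) (n : ℤ) : ℕ := ∑ q ∈ T, n.natAbs.factorization q

lemma vT_mul (T : Finset ℕ) {n m : ℤ} (hn : n ≠ 0) (hm : m ≠ 0) :
    vT T (n * m) = vT T n + vT T m := by
  unfold vT
  rw [← sum_add_distrib]
  refine sum_congr rfl fun q _ => ?_
  rw [Int.natAbs_mul, Nat.factorization_mul (Int.natAbs_ne_zero.2 hn) (Int.natAbs_ne_zero.2 hm)]
  rfl

lemma vT_sq (T : Finset ℕ) {n : ℤ} (hn : n ≠ 0) (h : IsSquare n) : Even (vT T n) := by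
  obtain ⟨r, rfl⟩ := h
  have hr : r ≠ 0 := left_ne_zero_of_mul hn
  rw [vT_mul T hr hr]
  exact ⟨_, rfl⟩

lemma vT_sqf (T : Finset ℕ) (hT : ∀ q ∈ T, q.Prime) {n : ℤ} (hn : Squarefree n) :
    vT T n = (T.filter (fun q : ℕ => (q : ℤ) ∣ n)).card := by
  unfold vT
  rw [card_filter]
  refine sum_congr rfl fun q hq => ?_
  have hn' : Squarefree n.natAbs := Int.squarefree_natAbs.2 hn
  have h1 := hn'.natFactorization_le_one q
  split_ifs with h
  · have h2 := (hT q hq).factorization_pos_of_dvd (Int.natAbs_ne_zero.2 hn.ne_zero)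
      (Int.natCast_dvd.1 h)
    omega
  · exact Nat.factorization_eq_zero_of_not_dvd (fun h' => h (Int.natCast_dvd.2 h'))

lemma pT_ne {T : Finset ℕ} (hT : ∀ q ∈ T, q.Prime) : pT T ≠ 0 := by
  unfold pT
  exact_mod_cast (prod_pos fun q hq => (hT q hq).pos).ne'

lemma pT_pos {T : Finset ℕ} (hT : ∀ q ∈ T, q.Prime) : 0 < pT T := by
  unfold pT
  exact_mod_cast prod_pos fun q hq => (hT q hq).pos

lemma vT_pow {T : Finset ℕ} (hT : ∀ q ∈ T, q.Prime) {n m : ℤ} (j : ℕ) (hn : n = pT T ^ j * m)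
    (hm : ∀ q ∈ T, ¬ (q : ℤ) ∣ m) (hm0 : m ≠ 0) : vT T n = j * T.card := by
  unfold vT
  rw [card_eq_sum_ones, mul_sum]
  refine sum_congr rfl fun q hq => ?_
  have hq' := hT q hq
  have hd : (pT T).natAbs = ∏ q ∈ T, q := by unfold pT; rw [Int.natAbs_natCast]
  have hd0 : (pT T).natAbs ≠ 0 := Int.natAbs_ne_zero.2 (pT_ne hT)
  rw [hn, Int.natAbs_mul, Int.natAbs_pow, Nat.factorization_mul (pow_ne_zero j hd0)
    (Int.natAbs_ne_zero.2 hm0), Nat.factorization_pow]
  have h1 : m.natAbs.factorization q = 0 :=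
    Nat.factorization_eq_zero_of_not_dvd (fun h => hm q hq (Int.natCast_dvd.2 h))
  have h2 : (pT T).natAbs.factorization q = 1 := by
    have h3 : Squarefree (pT T).natAbs := by rw [hd]; exact sub_sqf hT
    have h4 := h3.natFactorization_le_one q
    have h5 := hq'.factorization_pos_of_dvd hd0 (by rw [hd]; exact dvd_prod_of_mem _ hq)
    omega
  rw [Finsupp.add_apply, Finsupp.smul_apply, h1, h2, smul_eq_mul]
  ring

lemma jac_prod (S : Finset ℕ) (p : ℕ) (c : ℤ) (h : ∀ q ∈ S, jacobiSym (q : ℤ) p = c) :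
    jacobiSym (pT S) p = c ^ S.card := by
  classical
  induction S using Finset.induction_on with
  | empty =>
    unfold pT
    rw [prod_empty, card_empty, pow_zero, Nat.cast_one, jacobiSym.one_left]
  | insert a S ha ih =>
    have h1 : pT (insert a S) = (a : ℤ) * pT S := by
      unfold pT
      rw [prod_insert ha]
      push_cast
      ring
    rw [h1, jacobiSym.mul_left, h a (mem_insert_self _ _),
      ih fun q hq => h q (mem_insert_of_mem hq), card_insert_of_notMem ha, pow_succ, mul_comm]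

lemma isSquare_pT {K : Type} [Field K] (S : Finset ℕ) (h : ∀ q ∈ S, IsSquare ((q : ℤ) : K)) :
    IsSquare ((pT S : ℤ) : K) := by
  classical
  induction S using Finset.induction_on with
  | empty =>
    unfold pT
    rw [prod_empty, Nat.cast_one, Int.cast_one]
    exact IsSquare.one
  | insert a S ha ih =>
    have h1 : pT (insert a S) = (a : ℤ) * pT S := by
      unfold pT
      rw [prod_insert ha]
      push_cast
      ring
    rw [h1, Int.cast_mul]
    exact (h a (mem_insert_self _ _)).mul (ih fun q hq => h q (mem_insert_of_mem hq))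

lemma loc_cls' {K : Type} [Field K] {A B d1 d2 d1' d2' : ℤ} (h1 : (d1 : K) ≠ 0)
    (h2 : (d2 : K) ≠ 0) (s1 : IsSquare ((d1 : K) * d1')) (s2 : IsSquare ((d2 : K) * d2'))
    (h : Loc K A B d1 d2) : Loc K A B d1' d2' := by
  obtain ⟨x, y, hy, hxy, t1, t2⟩ := h
  exact ⟨x, y, hy, hxy, sq_mul_trans h1 t1 s1, sq_mul_trans h2 t2 s2⟩

lemma goodq_sq {Y : ℕ} {A B : ℤ} {s : ℕ → Bool} {q : ℕ} (hq : GoodQ Y A B s q) (p : ℕ)
    [hp : Fact p.Prime] (hpY : p ≤ Y) : IsSquare ((q : ℤ) : ℚ_[p]) := by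
  by_cases hp2 : p = 2
  · subst hp2
    have h3 := Pool.Agent.W975.BMX.two1 (q : ℤ) 1 (by have := hq.m8; omega)
      (by have := hq.m8; omega)
    rwa [mul_one] at h3
  · have h4 := hq.sm p hp.out hp2 hpY
    have hnd : ¬ (p : ℤ) ∣ (q : ℤ) := by
      intro hd
      have hpq : p = q := (Nat.prime_dvd_prime_iff_eq hp.out hq.pr).1 (by exact_mod_cast hd)
      rw [← hpq] at h4
      have h5 : jacobiSym (p : ℤ) p = 0 := by
        rw [jacobiSym.eq_zero_iff_not_coprime]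
        simp [hp.out.ne_one]
      rw [h5] at h4
      norm_num at h4
    have h3 := Pool.Agent.W335.BMX.odd1 p hp2 (q : ℤ) 1 hnd (by
      intro h
      exact hp.out.one_lt.ne' (by exact_mod_cast Int.eq_one_of_dvd_one (by positivity) h))
      (by
        rw [jacobiSym.legendreSym.to_jacobiSym, jacobiSym.legendreSym.to_jacobiSym, h4]
        simp)
    rwa [mul_one] at h3

lemma sgn_mul {p : ℕ} (hp : p.Prime) {F g : ℤ} (hF : ¬ (p : ℤ) ∣ F) (hJ : jacobiSym F p = 1) :
    dv p (F * g) = dv p g ∧ sgn p (F * g) = sgn p g := by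
  have hpi : Prime (p : ℤ) := Nat.prime_iff_prime_int.1 hp
  have h1 : ((p : ℤ) ∣ F * g) ↔ (p : ℤ) ∣ g :=
    ⟨fun h => (hpi.dvd_or_dvd h).resolve_left hF, fun h => h.mul_left _⟩
  refine ⟨by unfold dv; simp only [h1], ?_⟩
  unfold sgn
  by_cases hg : (p : ℤ) ∣ g
  · have g1 : Int.gcd (F * g) p = p := by
      show Nat.gcd (F * g).natAbs (p : ℤ).natAbs = p
      rw [Int.natAbs_natCast]
      exact Nat.gcd_eq_right (Int.natCast_dvd.1 (h1.2 hg))
    have g2 : Int.gcd g p = p := by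
      show Nat.gcd g.natAbs (p : ℤ).natAbs = p
      rw [Int.natAbs_natCast]
      exact Nat.gcd_eq_right (Int.natCast_dvd.1 hg)
    rw [g1, g2, Int.mul_ediv_assoc F hg]
    unfold sg0
    rw [jacobiSym.mul_left, hJ, one_mul]
  · have g1 : Int.gcd (F * g) p = 1 := by
      rw [Int.gcd_comm]
      exact Int.isCoprime_iff_gcd_eq_one.1 ((Prime.coprime_iff_not_dvd hpi).2 (fun h => hg (h1.1 h)))
    have g2 : Int.gcd g p = 1 := by
      rw [Int.gcd_comm]
      exact Int.isCoprime_iff_gcd_eq_one.1 ((Prime.coprime_iff_not_dvd hpi).2 hg)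
    rw [g1, g2, Nat.cast_one, Int.ediv_one, Int.ediv_one]
    unfold sg0
    rw [jacobiSym.mul_left, hJ, one_mul]

/-- splitting off the primes of `T` -/
lemma split (T : Finset ℕ) (hT : ∀ q ∈ T, q.Prime) {n : ℤ} (hn : Squarefree n) :
    ∃ g : ℤ, n = pT (T.filter (fun q : ℕ => (q : ℤ) ∣ n)) * g ∧ Squarefree g ∧
      ∀ q ∈ T, ¬ (q : ℤ) ∣ g := by
  obtain ⟨S, hS⟩ : ∃ S, S = T.filter (fun q : ℕ => (q : ℤ) ∣ n) := ⟨_, rfl⟩
  rw [← hS]
  have hS1 : ∀ q ∈ S, q.Prime := fun q hq => hT q (by rw [hS] at hq; exact (mem_filter.1 hq).1)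
  have h1 : pT S ∣ n := by
    unfold pT
    rw [Int.natCast_dvd]
    exact sub_dvd hS1 fun q hq => by
      rw [hS] at hq
      exact Int.natCast_dvd.1 (mem_filter.1 hq).2
  obtain ⟨g, hg⟩ := h1
  refine ⟨g, hg, ?_, ?_⟩
  · rw [hg] at hn
    exact hn.of_mul_right
  · intro q hq hqg
    have hqn : (q : ℤ) ∣ n := by rw [hg]; exact hqg.mul_left _
    have hqS : q ∈ S := by rw [hS]; exact mem_filter.2 ⟨hq, hqn⟩
    have h2 : (q : ℤ) ∣ pT S := by
      unfold pT
      exact Int.natCast_dvd_natCast.2 (dvd_prod_of_mem _ hqS)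
    have h3 : (q : ℤ) * q ∣ n := by rw [hg]; exact mul_dvd_mul h2 hqg
    exact (Nat.prime_iff_prime_int.1 (hT q hq)).not_isUnit (hn _ h3)

end Pool.Agent.K1H97.CU
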